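import Pool.Agent.H590R3.AbStmts

set_option autoImplicit false

/-!
# The partition of unity in terms of cosine coefficients
-/

namespace Pool.Agent.H984R3.AbPartiOf

open Pool.H590R3.Ab

/-- the bump -/
noncomputable def w (t : ℝ) : ℝ := Real.smoothTransition (t + 1) - Real.smoothTransition t

theorem w_contDiff : ContDiff ℝ 2 w := by
  unfold w
  have h1 : ContDiff ℝ 2 Real.smoothTransition := Real.smoothTransition.contDiff
  exact (h1.comp (contDiff_id.add contDiff_const)).sub h1

theorem w_zero (u : ℝ) (h : 1 ≤ |u|) : w u = 0 := by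
  unfold w
  rcases le_abs.1 h with h | h
  · rw [Real.smoothTransition.one_of_one_le (by linarith), Real.smoothTransition.one_of_one_le h,
      sub_self]
  · rw [Real.smoothTransition.zero_of_nonpos (by linarith),
      Real.smoothTransition.zero_of_nonpos (by linarith), sub_self]

theorem w_sum (M : ℕ) (t : ℝ) : ∑ j ∈ Finset.range (M + 1), w (t - j) =
    Real.smoothTransition (t + 1) - Real.smoothTransition (t - M) := by
  induction M with
  | zero => simp [w]
  | succ M ih =>
    rw [Finset.sum_range_succ, ih]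
    unfold w
    push_cast
    have : t - ((M : ℝ) + 1) + 1 = t - M := by ring
    rw [this]
    ring

/-- the integrand is interval integrable -/
theorem ii {F : ℝ → ℝ} (hF : Continuous F) (k : ℝ) :
    IntervalIntegrable (fun θ => F θ * Real.cos (k * θ)) MeasureTheory.volume 0 Real.pi :=
  (hF.mul (Real.continuous_cos.comp (continuous_const.mul continuous_id))).intervalIntegrable _ _

theorem ca_sum {ι : Type} (s : Finset ι) (F : ι → ℝ → ℝ) (hF : ∀ i ∈ s, Continuous (F i))
    (k : ℤ) : ca (fun θ => ∑ i ∈ s, F i θ) k = ∑ i ∈ s, ca (F i) k := by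
  unfold ca
  rw [← Finset.mul_sum, ← intervalIntegral.integral_finsetSum (fun i hi => ii (hF i hi) k)]
  congr 1
  apply intervalIntegral.integral_congr
  intro θ _
  simp only [Finset.sum_mul]

theorem ca_const_mul (F : ℝ → ℝ) (c : ℝ) (k : ℤ) : ca (fun θ => c * F θ) k = c * ca F k := by
  unfold ca
  simp only [mul_assoc]
  rw [intervalIntegral.integral_const_mul]
  ring

theorem ca_sub {F G : ℝ → ℝ} (hF : Continuous F) (hG : Continuous G) (k : ℤ) :
    ca (fun θ => F θ - G θ) k = ca F k - ca G k := by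
  unfold ca
  rw [← mul_sub, ← intervalIntegral.integral_sub (ii hF k) (ii hG k)]
  congr 1
  apply intervalIntegral.integral_congr
  intro θ _
  simp only [sub_mul]

theorem ca_one (k : ℤ) : ca (fun _ => 1) k = if k = 0 then 1 else 0 := by
  unfold ca
  simp only [one_mul]
  split_ifs with h
  · subst h
    simp
  · have hk : (k : ℝ) ≠ 0 := by exact_mod_cast h
    have : ∫ θ in (0:ℝ)..Real.pi, Real.cos (k * θ) = 0 := by
      rw [intervalIntegral.integral_comp_mul_left (f := Real.cos) hk]
      rw [integral_cos]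
      simp
    rw [this, mul_zero]

theorem ca_cos_mul {F : ℝ → ℝ} (hF : Continuous F) (k : ℤ) :
    ca (fun θ => Real.cos θ * F θ) k = (ca F (k - 1) + ca F (k + 1)) / 2 := by
  unfold ca
  rw [← mul_add, ← intervalIntegral.integral_add (ii hF _) (ii hF _), mul_div_assoc,
    ← intervalIntegral.integral_div]
  congr 1
  apply intervalIntegral.integral_congr
  intro θ _
  simp only
  push_cast
  have h1 : Real.cos (((k : ℝ) - 1) * θ) = Real.cos (k * θ) * Real.cos θ + Real.sin (k * θ) * Real.sin θ := by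
    rw [sub_mul, one_mul, Real.cos_sub]
  have h2 : Real.cos (((k : ℝ) + 1) * θ) = Real.cos (k * θ) * Real.cos θ - Real.sin (k * θ) * Real.sin θ := by
    rw [add_mul, one_mul, Real.cos_add]
  rw [h1, h2]
  ring

theorem ca_zero (k : ℤ) : ca (fun _ => 0) k = 0 := by
  unfold ca
  simp

/-- the functions `h_j` -/
noncomputable def hh (δ c : ℝ) (θ : ℝ) : ℝ := w ((Real.cos θ - c) / δ)

theorem hh_cont (δ c : ℝ) : Continuous (hh δ c) :=
  w_contDiff.continuous.comp ((Real.continuous_cos.sub continuous_const).div_const _)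

theorem hh_even (δ c θ : ℝ) : hh δ c (-θ) = hh δ c θ := by
  unfold hh; rw [Real.cos_neg]

theorem hh_per (δ c θ : ℝ) : hh δ c (θ + 2 * Real.pi) = hh δ c θ := by
  unfold hh; rw [Real.cos_add_two_pi]

theorem partiOf : PartiOf_stmt := by
  intro hP hD ε hε
  have hsumw := (hD w w_contDiff w_zero).1
  have hG : ∀ b : ℝ, ContDiff ℝ 2 (fun u => (u + b) * w u) := fun b =>
    (contDiff_id.add contDiff_const).mul w_contDiff
  have hG0 : ∀ b : ℝ, ∀ u : ℝ, 1 ≤ |u| → (u + b) * w u = 0 := fun b u hu => by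
    rw [w_zero u hu, mul_zero]
  obtain ⟨d0, hd0, h0⟩ := (hD _ (hG 0) (hG0 0)).2 ε hε
  obtain ⟨d1, hd1, h1⟩ := (hD _ (hG 1) (hG0 1)).2 ε hε
  obtain ⟨d2, hd2, h2⟩ := (hD _ (hG 2) (hG0 2)).2 ε hε
  obtain ⟨M, hM⟩ := exists_nat_gt (2 / min (min d0 d1) (min d2 1))
  have hmin : 0 < min (min d0 d1) (min d2 1) := lt_min (lt_min hd0 hd1) (lt_min hd2 one_pos)
  have hM0 : (0 : ℝ) < M := lt_trans (by positivity) hM
  set δ : ℝ := 2 / M with hδ
  have hδ0 : 0 < δ := by positivity
  have hδm : δ < min (min d0 d1) (min d2 1) := by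
    rw [div_lt_iff₀ hmin] at hM
    rw [hδ, div_lt_iff₀ hM0]
    linarith
  have e0 : δ < d0 := hδm.trans_le ((min_le_left _ _).trans (min_le_left _ _))
  have e1 : δ < d1 := hδm.trans_le ((min_le_left _ _).trans (min_le_right _ _))
  have e2 : δ < d2 := hδm.trans_le ((min_le_right _ _).trans (min_le_left _ _))
  have e3 : δ ≤ 1 := (hδm.trans_le ((min_le_right _ _).trans (min_le_right _ _))).le
  have hMδ : (M : ℝ) * δ = 2 := by rw [hδ]; field_simp
  refine ⟨M, fun j => ca (hh δ (-1 + j * δ)), fun j => -1 + j * δ, ?_, ?_, ?_, ?_⟩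
  · intro j
    exact hsumw δ hδ0 e3 (-1 + j * δ)
  · intro k
    rw [← ca_sum _ _ (fun i _ => hh_cont δ _), ← ca_one k]
    congr 1
    funext θ
    have h : ∀ j : ℕ, hh δ (-1 + j * δ) θ = w ((Real.cos θ + 1) / δ - j) := by
      intro j
      unfold hh
      congr 1
      field_simp
      ring
    simp only [h]
    rw [w_sum, Real.smoothTransition.one_of_one_le, Real.smoothTransition.zero_of_nonpos, sub_zero]
    · have : (Real.cos θ + 1) / δ ≤ M := by
        rw [div_le_iff₀ hδ0, hMδ]
        linarith [Real.cos_le_one θ]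
      linarith
    · have : 0 ≤ (Real.cos θ + 1) / δ := by
        apply div_nonneg _ hδ0.le
        linarith [Real.neg_one_le_cos θ]
      linarith
  · intro i j hij m
    rw [hP (hh δ (-1 + i * δ)) (hh δ (-1 + j * δ)) (hh_cont _ _) (hh_cont _ _) (hh_even _ _)
      (hh_per _ _) (hh_even _ _) (hh_per _ _) (hsumw δ hδ0 e3 _) (hsumw δ hδ0 e3 _) m]
    rw [← ca_zero m]
    congr 1
    funext θ
    have hij' : (i : ℝ) + 2 ≤ j := by exact_mod_cast hij
    have e : (Real.cos θ - (-1 + i * δ)) / δ = (Real.cos θ - (-1 + j * δ)) / δ + (j - i) := by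
      field_simp
      ring
    unfold hh
    by_cases h : 1 ≤ |(Real.cos θ - (-1 + j * δ)) / δ|
    · rw [w_zero _ h, mul_zero]
    · rw [w_zero ((Real.cos θ - (-1 + i * δ)) / δ), zero_mul]
      rw [e]
      push Not at h
      rw [abs_lt] at h
      rw [le_abs]
      left
      linarith [h.1]
  · intro i j hij hji
    have key : ∀ b : ℝ, (j : ℝ) = i + b →
        (∑' k : ℤ, |ca (fun θ => δ * (fun u => (u + b) * w u) ((Real.cos θ - (-1 + j * δ)) / δ)) k| ≤ ε) →
        ∑' k : ℤ, |(ca (hh δ (-1 + j * δ)) (k - 1) + ca (hh δ (-1 + j * δ)) (k + 1)) / 2 -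
          (-1 + i * δ) * ca (hh δ (-1 + j * δ)) k| ≤ ε := by
      intro b hb h
      refine le_trans (le_of_eq ?_) h
      congr 1
      funext k
      congr 1
      rw [← ca_cos_mul (hh_cont _ _), ← ca_const_mul,
        ← ca_sub (F := fun θ => Real.cos θ * hh δ (-1 + j * δ) θ)
          (G := fun θ => (-1 + i * δ) * hh δ (-1 + j * δ) θ)
          (Real.continuous_cos.mul (hh_cont _ _)) (continuous_const.mul (hh_cont _ _))]
      congr 1
      funext θ
      unfold hh
      simp only
      rw [hb]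
      field_simp
      ring
    have hj : j = i ∨ j = i + 1 ∨ j = i + 2 := by omega
    rcases hj with hj | hj | hj
    · exact key 0 (by rw [hj]; simp) (h0 δ hδ0 e0 e3 _)
    · exact key 1 (by rw [hj]; simp) (h1 δ hδ0 e1 e3 _)
    · exact key 2 (by rw [hj]; simp) (h2 δ hδ0 e2 e3 _)

end Pool.Agent.H984R3.AbPartiOf
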