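import Mathlib

set_option autoImplicit false

/-!
Counting lemma: if every subset of a finite family of ordered pairs is cut out by `d` injective
height functions, the family has at most `8 (d+1)^2 |W|` members. The argument
(Sauer-Shelah on comparison patterns) is the one of `Pool.Agent.S10161` (helper24), restated for
an arbitrary vertex type.
-/

namespace Pool.Agent.H984R3.Count

open Finset in
lemma sum_choose_le (M N K : ℕ) (hK : 1 ≤ K) :
    ((∑ k ∈ Finset.Iic N, M.choose k : ℕ) : ℝ) ≤ (K : ℝ) ^ N * (1 + 1 / (K : ℝ)) ^ M := by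
  have hK0 : (0 : ℝ) < K := by exact_mod_cast (by omega : 0 < K)
  have hK1 : (1 : ℝ) ≤ K := by exact_mod_cast hK
  have h1 : (1 + 1 / (K : ℝ)) ^ M
      = ∑ k ∈ Finset.range (M + 1), (M.choose k : ℝ) * (1 / (K : ℝ)) ^ k := by
    rw [add_comm, add_pow]
    apply Finset.sum_congr rfl
    intro k _
    simp
    ring
  have h2 : ∑ k ∈ Finset.Iic N, (M.choose k : ℝ) * (1 / (K : ℝ)) ^ k
      ≤ ∑ k ∈ Finset.range (max M N + 1), (M.choose k : ℝ) * (1 / (K : ℝ)) ^ k := by
    apply Finset.sum_le_sum_of_subset_of_nonneg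
    · intro k hk
      rw [Finset.mem_Iic] at hk
      rw [Finset.mem_range]
      have := le_max_right M N
      omega
    · intro k _ _
      positivity
  have h3 : ∑ k ∈ Finset.range (max M N + 1), (M.choose k : ℝ) * (1 / (K : ℝ)) ^ k
      = ∑ k ∈ Finset.range (M + 1), (M.choose k : ℝ) * (1 / (K : ℝ)) ^ k := by
    symm
    apply Finset.sum_subset
    · intro k hk
      rw [Finset.mem_range] at hk ⊢
      have := le_max_left M N
      omega
    · intro k _ hk
      rw [Finset.mem_range] at hk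
      rw [Nat.choose_eq_zero_of_lt (by omega)]
      simp
  rw [h1, ← h3]
  refine le_trans ?_ (mul_le_mul_of_nonneg_left h2 (by positivity))
  push_cast
  rw [Finset.mul_sum]
  apply Finset.sum_le_sum
  intro k hk
  rw [Finset.mem_Iic] at hk
  have hc : (0 : ℝ) ≤ (M.choose k : ℝ) := by positivity
  have h4 : (1 : ℝ) ≤ (K : ℝ) ^ N * (1 / (K : ℝ)) ^ k := by
    rw [one_div, inv_pow]
    rw [← div_eq_mul_inv, le_div_iff₀ (by positivity), one_mul]
    exact pow_le_pow_right₀ hK1 hk
  nlinarith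

/-- the numerical core -/
lemma numeric (M N d P : ℕ) (hP : P ≤ ∑ k ∈ Finset.Iic N, M.choose k) (h : 2 ^ M ≤ P ^ d) :
    M ≤ 8 * (d + 1) ^ 2 * N := by
  set e := d + 1 with he
  have hS1 : 1 ≤ ∑ k ∈ Finset.Iic N, M.choose k := by
    have : M.choose 0 ≤ ∑ k ∈ Finset.Iic N, M.choose k :=
      Finset.single_le_sum (f := fun k => M.choose k) (fun _ _ => Nat.zero_le _) (by simp)
    simpa using this
  have h1 : 2 ^ M ≤ (∑ k ∈ Finset.Iic N, M.choose k) ^ e := by
    calc 2 ^ M ≤ P ^ d := h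
      _ ≤ (∑ k ∈ Finset.Iic N, M.choose k) ^ d := Nat.pow_le_pow_left hP d
      _ ≤ (∑ k ∈ Finset.Iic N, M.choose k) ^ e := Nat.pow_le_pow_right hS1 (by omega)
  set K := 4 * e with hKdef
  have hK1 : 1 ≤ K := by omega
  have h2 := sum_choose_le M N K hK1
  have hKR : (0 : ℝ) < (K : ℝ) := by exact_mod_cast (by omega : 0 < K)
  have h3 : (2 : ℝ) ^ M ≤ ((K : ℝ) ^ N * (1 + 1 / (K : ℝ)) ^ M) ^ e := by
    calc (2 : ℝ) ^ M = ((2 ^ M : ℕ) : ℝ) := by push_cast; rfl
      _ ≤ (((∑ k ∈ Finset.Iic N, M.choose k) ^ e : ℕ) : ℝ) := by exact_mod_cast h1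
      _ = ((∑ k ∈ Finset.Iic N, M.choose k : ℕ) : ℝ) ^ e := by push_cast; rfl
      _ ≤ _ := by gcongr
  have h4 : (1 + 1 / (K : ℝ)) ^ (2 * e) ≤ 2 := by
    have h5 : (1 + 1 / (K : ℝ)) ≤ Real.exp (1 / (K : ℝ)) := by
      have := Real.add_one_le_exp (1 / (K : ℝ))
      linarith
    calc (1 + 1 / (K : ℝ)) ^ (2 * e) ≤ (Real.exp (1 / (K : ℝ))) ^ (2 * e) := by gcongr
      _ = Real.exp (((2 * e : ℕ) : ℝ) * (1 / (K : ℝ))) := by rw [← Real.exp_nat_mul]
      _ = Real.exp (1 / 2) := by
          congr 1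
          rw [hKdef]
          have : (e : ℝ) ≠ 0 := by
            have : (0 : ℝ) < e := by exact_mod_cast (by omega : 0 < e)
            exact this.ne'
          push_cast
          field_simp
          norm_num
      _ ≤ 2 := by
          have h6 : Real.exp (1 / 2) ^ 2 ≤ 2 ^ 2 := by
            rw [← Real.exp_nat_mul]
            have : ((2 : ℕ) : ℝ) * (1 / 2) = 1 := by norm_num
            rw [this]
            have := Real.exp_one_lt_d9
            norm_num
            linarith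
          exact le_of_sq_le_sq h6 (by norm_num)
  have h7 : (4 : ℝ) ^ M ≤ (K : ℝ) ^ (2 * e * N) * 2 ^ M := by
    calc (4 : ℝ) ^ M = ((2 : ℝ) ^ M) ^ 2 := by
            rw [← pow_mul, mul_comm, pow_mul]; norm_num
      _ ≤ (((K : ℝ) ^ N * (1 + 1 / (K : ℝ)) ^ M) ^ e) ^ 2 := by gcongr
      _ = (K : ℝ) ^ (2 * e * N) * ((1 + 1 / (K : ℝ)) ^ (2 * e)) ^ M := by
          rw [← pow_mul, mul_pow, ← pow_mul, ← pow_mul, ← pow_mul]
          congr 2 <;> ring
      _ ≤ (K : ℝ) ^ (2 * e * N) * 2 ^ M := by gcongr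
  have h8 : (2 : ℝ) ^ M ≤ (K : ℝ) ^ (2 * e * N) := by
    have h9 : (4 : ℝ) ^ M = 2 ^ M * 2 ^ M := by rw [← mul_pow]; norm_num
    rw [h9] at h7
    exact le_of_mul_le_mul_right h7 (by positivity)
  have h10 : (2 : ℕ) ^ M ≤ K ^ (2 * e * N) := by exact_mod_cast h8
  have h11 : K ≤ 2 ^ K := Nat.lt_two_pow_self.le
  have h12 : (2 : ℕ) ^ M ≤ 2 ^ (K * (2 * e * N)) := by
    calc (2 : ℕ) ^ M ≤ K ^ (2 * e * N) := h10
      _ ≤ (2 ^ K) ^ (2 * e * N) := Nat.pow_le_pow_left h11 _
      _ = 2 ^ (K * (2 * e * N)) := by rw [← pow_mul]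
  have h13 : M ≤ K * (2 * e * N) := (Nat.pow_le_pow_iff_right (by norm_num)).1 h12
  calc M ≤ K * (2 * e * N) := h13
    _ = 8 * e ^ 2 * N := by rw [hKdef]; ring

/-- a set of pairs shattered by comparison patterns has at most as many pairs as there are
vertices -/
lemma shatter_card {W α : Type} [Fintype W] [Fintype α] [DecidableEq α] [DecidableEq W]
    (l r : α → W) (hlr : ∀ p, l p ≠ r p) (F : Finset (Finset α))
    (hF : ∀ u ∈ F, ∃ h : W → ℕ, Function.Injective h ∧
      ∀ p : α, p ∈ u ↔ h (l p) < h (r p))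
    (T : Finset α) (hT : F.Shatters T) : T.card ≤ Fintype.card W := by
  by_contra hcon
  push Not at hcon
  let v : T → (W → ℚ) := fun p =>
    Pi.single (l p.1) (1 : ℚ) - Pi.single (r p.1) (1 : ℚ)
  have hnl : ¬ LinearIndependent ℚ v := by
    intro hli
    have h1 := hli.fintype_card_le_finrank
    simp at h1
    omega
  rw [Fintype.not_linearIndependent_iff] at hnl
  obtain ⟨g, hg, p0, hp0⟩ := hnl
  let t : Finset α := (T.attach.filter (fun p => 0 < g p)).image Subtype.val
  have ht : t ⊆ T := by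
    intro x hx
    simp only [t, Finset.mem_image, Finset.mem_filter] at hx
    obtain ⟨y, _, rfl⟩ := hx
    exact y.2
  obtain ⟨u, hu, hut⟩ := hT ht
  obtain ⟨h, hinj, hh⟩ := hF u hu
  have hmem : ∀ p : T, p.1 ∈ u ↔ 0 < g p := by
    intro p
    have h1 : p.1 ∈ T ∩ u ↔ p.1 ∈ t := by rw [hut]
    rw [Finset.mem_inter] at h1
    have h2 : p.1 ∈ t ↔ 0 < g p := by
      simp only [t, Finset.mem_image, Finset.mem_filter]
      constructor
      · rintro ⟨y, ⟨_, hy⟩, hyp⟩
        have : y = p := Subtype.ext hyp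
        rwa [this] at hy
      · intro hp
        exact ⟨p, ⟨Finset.mem_attach _ _, hp⟩, rfl⟩
    rw [← h2, ← h1]
    exact ⟨fun h3 => ⟨p.2, h3⟩, fun h3 => h3.2⟩
  have hsum : ∑ p : T, g p * ((h (l p.1) : ℚ) - (h (r p.1) : ℚ)) = 0 := by
    have h1 : ∑ x : W, (h x : ℚ) * (∑ p : T, g p • v p) x = 0 := by
      rw [hg]; simp
    rw [← h1]
    simp only [Finset.sum_apply, Pi.smul_apply, smul_eq_mul, Finset.mul_sum]
    rw [Finset.sum_comm]
    apply Finset.sum_congr rfl
    intro p _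
    have h2 : ∀ x : W, (h x : ℚ) * (g p * v p x)
        = g p * ((h x : ℚ) * (Pi.single (l p.1) (1 : ℚ) : W → ℚ) x)
          - g p * ((h x : ℚ) * (Pi.single (r p.1) (1 : ℚ) : W → ℚ) x) := by
      intro x
      simp only [v, Pi.sub_apply]
      ring
    rw [Finset.sum_congr rfl (fun x _ => h2 x), Finset.sum_sub_distrib, ← Finset.mul_sum,
      ← Finset.mul_sum]
    have h3 : ∀ y : W, ∑ x : W,
        ((h x : ℚ) * (Pi.single y (1 : ℚ) : W → ℚ) x) = (h y : ℚ) := by
      intro y
      rw [Finset.sum_eq_single y]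
      · simp
      · intro b _ hb
        simp [Pi.single_eq_of_ne hb]
      · intro hy
        exact absurd (Finset.mem_univ y) hy
    rw [h3, h3]
    ring
  have hterm : ∀ p : T, g p * ((h (l p.1) : ℚ) - (h (r p.1) : ℚ)) ≤ 0 ∧
      (g p ≠ 0 → g p * ((h (l p.1) : ℚ) - (h (r p.1) : ℚ)) < 0) := by
    intro p
    have hne : h (l p.1) ≠ h (r p.1) := by
      intro h1
      exact hlr _ (hinj h1)
    rcases lt_trichotomy (g p) 0 with hneg | hz | hpos
    · have h1 : ¬ (p.1 ∈ u) := by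
        rw [hmem p]; exact not_lt.2 hneg.le
      rw [hh] at h1
      have h2 : h (r p.1) < h (l p.1) := by omega
      have h3 : (0 : ℚ) < (h (l p.1) : ℚ) - (h (r p.1) : ℚ) := by
        rw [sub_pos]; exact_mod_cast h2
      have h4 := mul_neg_of_neg_of_pos hneg h3
      exact ⟨h4.le, fun _ => h4⟩
    · rw [hz]; simp
    · have h1 : p.1 ∈ u := (hmem p).2 hpos
      rw [hh] at h1
      have h3 : (h (l p.1) : ℚ) - (h (r p.1) : ℚ) < 0 := by
        rw [sub_neg]; exact_mod_cast h1
      have h4 := mul_neg_of_pos_of_neg hpos h3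
      exact ⟨h4.le, fun _ => h4⟩
  have hlt : ∑ p : T, g p * ((h (l p.1) : ℚ) - (h (r p.1) : ℚ)) < 0 := by
    have := Finset.sum_lt_sum (s := Finset.univ)
      (f := fun p : T => g p * ((h (l p.1) : ℚ) - (h (r p.1) : ℚ)))
      (g := fun _ => (0 : ℚ)) (fun p _ => (hterm p).1) ⟨p0, Finset.mem_univ _, (hterm p0).2 hp0⟩
    simpa using this
  rw [hsum] at hlt
  exact lt_irrefl _ hlt

theorem count_bound {W α : Type} [Fintype W] [Fintype α] (d : ℕ)
    (l r : α → W) (hlr : ∀ p, l p ≠ r p)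
    (hsub : ∀ S : Finset α, ∃ f : Fin d → W → ℕ,
      (∀ i, Function.Injective (f i)) ∧
      ∀ p : α, p ∈ S ↔ ∀ i, f i (l p) < f i (r p)) :
    Fintype.card α ≤ 8 * (d + 1) ^ 2 * Fintype.card W := by
  classical
  let F : Finset (Finset α) := Finset.univ.filter (fun S : Finset α =>
    ∃ h : W → ℕ, Function.Injective h ∧
      ∀ p : α, p ∈ S ↔ h (l p) < h (r p))
  have hF : ∀ u ∈ F, ∃ h : W → ℕ, Function.Injective h ∧
      ∀ p : α, p ∈ u ↔ h (l p) < h (r p) := by
    intro u hu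
    simpa [F] using hu
  have hvc : F.vcDim ≤ Fintype.card W := by
    unfold Finset.vcDim
    apply Finset.sup_le
    intro T hT
    rw [Finset.mem_shatterer] at hT
    exact shatter_card l r hlr F hF T hT
  have hcard : F.card ≤ ∑ k ∈ Finset.Iic (Fintype.card W), (Fintype.card α).choose k := by
    calc F.card ≤ F.shatterer.card := Finset.card_le_card_shatterer F
      _ ≤ ∑ k ∈ Finset.Iic F.vcDim, (Fintype.card α).choose k := Finset.card_shatterer_le_sum_vcDim
      _ ≤ ∑ k ∈ Finset.Iic (Fintype.card W), (Fintype.card α).choose k := by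
          apply Finset.sum_le_sum_of_subset
          exact Finset.Iic_subset_Iic.2 hvc
  choose f hf1 hf2 using hsub
  let φ : Finset α → (Fin d → {u : Finset α // u ∈ F}) := fun S i =>
    ⟨Finset.univ.filter (fun p : α => f S i (l p) < f S i (r p)), by
      simp only [F, Finset.mem_filter, Finset.mem_univ, true_and]
      exact ⟨f S i, hf1 S i, fun p => Iff.rfl⟩⟩
  have hφ : Function.Injective φ := by
    intro S S' hSS
    ext p
    rw [hf2 S p, hf2 S' p]
    have key : ∀ i, (f S i (l p) < f S i (r p)) ↔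
        (f S' i (l p) < f S' i (r p)) := by
      intro i
      have h1 := congrArg (fun w : Fin d → {u : Finset α // u ∈ F} => p ∈ (w i).1) hSS
      simpa [φ] using h1
    exact forall_congr' key
  have h2 : 2 ^ Fintype.card α ≤ F.card ^ d := by
    have h3 := Fintype.card_le_of_injective φ hφ
    rw [Fintype.card_finset, Fintype.card_fun, Fintype.card_fin, Fintype.card_coe] at h3
    exact h3
  exact numeric (Fintype.card α) (Fintype.card W) d F.card hcard h2

end Pool.Agent.H984R3.Count
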