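import Mathlib
import Pool.Agent.H984R3.Count

set_option autoImplicit false

namespace Pool.Agent.H984R3.BExp

open Pool.Agent.H984R3.Count

/-- four-to-one: at least a quarter of all two-colourings separate `u` from `v` in the given
direction -/
lemma quarter {W : Type} [Fintype W] [DecidableEq W] (u v : W) (huv : u ≠ v) :
    Fintype.card (W → Bool) ≤
      4 * (Finset.univ.filter (fun A : W → Bool => A u = true ∧ A v = false)).card := by
  classical
  let S := Finset.univ.filter (fun A : W → Bool => A u = true ∧ A v = false)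
  let φ : (W → Bool) → ({A // A ∈ S} × (Bool × Bool)) := fun A =>
    (⟨Function.update (Function.update A u true) v false, by
      simp only [S, Finset.mem_filter, Finset.mem_univ, true_and]
      constructor
      · rw [Function.update_of_ne huv, Function.update_self]
      · rw [Function.update_self]⟩, (A u, A v))
  have hφ : Function.Injective φ := by
    intro A A' h
    simp only [φ, Prod.mk.injEq, Subtype.mk.injEq] at h
    obtain ⟨h1, h2, h3⟩ := h
    funext x
    by_cases hx : x = v
    · rw [hx]; exact h3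
    · by_cases hx' : x = u
      · rw [hx']; exact h2
      · have := congrFun h1 x
        rwa [Function.update_of_ne hx, Function.update_of_ne hx', Function.update_of_ne hx,
          Function.update_of_ne hx'] at this
  have h := Fintype.card_le_of_injective φ hφ
  rw [Fintype.card_prod, Fintype.card_coe, Fintype.card_prod, Fintype.card_bool] at h
  calc Fintype.card (W → Bool) ≤ S.card * (2 * 2) := h
    _ = 4 * S.card := by ring

lemma cut_avg {W : Type} [Fintype W] [DecidableEq W] (H : SimpleGraph W) [DecidableRel H.Adj]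
    (K : ℕ)
    (h : ∀ A : W → Bool, (Finset.univ.filter
      (fun p : W × W => H.Adj p.1 p.2 ∧ A p.1 = true ∧ A p.2 = false)).card ≤ K) :
    H.edgeFinset.card ≤ 2 * K := by
  classical
  have h1 : ∑ A : W → Bool, (Finset.univ.filter
      (fun p : W × W => H.Adj p.1 p.2 ∧ A p.1 = true ∧ A p.2 = false)).card
      ≤ Fintype.card (W → Bool) * K := by
    calc _ ≤ ∑ A : W → Bool, K := Finset.sum_le_sum (fun A _ => h A)
      _ = Fintype.card (W → Bool) * K := by simp
  have h2 : ∑ A : W → Bool, (Finset.univ.filter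
      (fun p : W × W => H.Adj p.1 p.2 ∧ A p.1 = true ∧ A p.2 = false)).card
      = ∑ p ∈ Finset.univ.filter (fun p : W × W => H.Adj p.1 p.2),
          (Finset.univ.filter (fun A : W → Bool => A p.1 = true ∧ A p.2 = false)).card := by
    simp only [Finset.card_filter]
    rw [Finset.sum_comm, Finset.sum_filter]
    apply Finset.sum_congr rfl
    intro p _
    by_cases hp : H.Adj p.1 p.2
    · simp [hp]
    · simp [hp]
  have h3 : (Finset.univ.filter (fun p : W × W => H.Adj p.1 p.2)).card * Fintype.card (W → Bool)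
      ≤ 4 * ∑ p ∈ Finset.univ.filter (fun p : W × W => H.Adj p.1 p.2),
          (Finset.univ.filter (fun A : W → Bool => A p.1 = true ∧ A p.2 = false)).card := by
    rw [Finset.mul_sum, ← smul_eq_mul, ← Finset.sum_const]
    apply Finset.sum_le_sum
    intro p hp
    rw [Finset.mem_filter] at hp
    exact quarter p.1 p.2 hp.2.ne
  have h4 : (Finset.univ.filter (fun p : W × W => H.Adj p.1 p.2)).card
      = 2 * H.edgeFinset.card := by
    rw [← H.sum_degrees_eq_twice_card_edges]
    rw [Finset.card_filter, Fintype.sum_prod_type]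
    apply Finset.sum_congr rfl
    intro x _
    rw [← Finset.card_filter]
    rw [← SimpleGraph.card_neighborFinset_eq_degree]
    congr 1
    ext y
    simp
  rw [h4] at h3
  rw [h2] at h1
  have hpos : 0 < Fintype.card (W → Bool) := Fintype.card_pos
  have h5 : (2 * H.edgeFinset.card) * Fintype.card (W → Bool)
      ≤ (4 * K) * Fintype.card (W → Bool) := by
    calc _ ≤ _ := h3
      _ ≤ 4 * (Fintype.card (W → Bool) * K) := by gcongr
      _ = _ := by ring
  have h6 := Nat.le_of_mul_le_mul_right h5 hpos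
  omega

/-- breadth-first forests in the branch sets -/
lemma exists_forest {V W : Type} (G : SimpleGraph V) (B : W → Set V) (r : ℕ)
    (hdisj : ∀ w w', w ≠ w' → Disjoint (B w) (B w'))
    (root : W → V) (hroot : ∀ w, root w ∈ B w)
    (hwalk : ∀ w, ∀ u ∈ B w, ∃ p : G.Walk (root w) u, p.length ≤ r ∧ ∀ x ∈ p.support, x ∈ B w) :
    ∃ (par : V → V) (dep : V → ℕ),
      (∀ v, par v = v ∨ (G.Adj (par v) v ∧ dep (par v) < dep v)) ∧
      (∀ w v, par v ∈ B w ↔ v ∈ B w) ∧
      (∀ w, ∀ v ∈ B w, par v = v → v = root w) ∧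
      (∀ v, dep v ≤ r) := by
  classical
  have huniq : ∀ w w' v, v ∈ B w → v ∈ B w' → w = w' := by
    intro w w' v h1 h2
    by_contra hne
    exact (Set.disjoint_left.1 (hdisj w w' hne)) h1 h2
  -- length of a shortest walk to the root
  let Q : W → V → ℕ → Prop := fun w u n =>
    ∃ p : G.Walk u (root w), p.length = n ∧ ∀ x ∈ p.support, x ∈ B w
  have hQ : ∀ w, ∀ u ∈ B w, ∃ n, n ≤ r ∧ Q w u n := by
    intro w u hu
    obtain ⟨p, hp1, hp2⟩ := hwalk w u hu
    refine ⟨p.length, hp1, p.reverse, by simp, ?_⟩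
    intro x hx
    rw [SimpleGraph.Walk.support_reverse, List.mem_reverse] at hx
    exact hp2 x hx
  let D : W → V → ℕ := fun w u => sInf {n | Q w u n}
  have hD1 : ∀ w, ∀ u ∈ B w, Q w u (D w u) := by
    intro w u hu
    obtain ⟨n, _, hn⟩ := hQ w u hu
    exact Nat.sInf_mem (s := {n | Q w u n}) ⟨n, hn⟩
  have hD2 : ∀ w, ∀ u, ∀ n, Q w u n → D w u ≤ n := by
    intro w u n hn
    exact Nat.sInf_le hn
  have hD3 : ∀ w, ∀ u ∈ B w, D w u ≤ r := by
    intro w u hu
    obtain ⟨n, hn, hn'⟩ := hQ w u hu
    exact (hD2 w u n hn').trans hn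
  have hpar : ∀ w, ∀ u ∈ B w, u ≠ root w → ∃ u' ∈ B w, G.Adj u' u ∧ D w u' < D w u := by
    intro w u hu hne
    obtain ⟨p, hp1, hp2⟩ := hD1 w u hu
    cases p with
    | nil => exact absurd rfl hne
    | cons hadj q =>
      rename_i u'
      refine ⟨u', ?_, hadj.symm, ?_⟩
      · apply hp2
        rw [SimpleGraph.Walk.support_cons]
        exact List.mem_cons_of_mem _ q.start_mem_support
      · have h1 : Q w u' q.length := by
          refine ⟨q, rfl, ?_⟩
          intro x hx
          apply hp2
          rw [SimpleGraph.Walk.support_cons]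
          exact List.mem_cons_of_mem _ hx
        have h2 := hD2 w u' _ h1
        rw [SimpleGraph.Walk.length_cons] at hp1
        omega
  -- assemble
  have key : ∀ v : V, ∃ (pv : V),
      (pv = v ∨ (G.Adj pv v ∧ ∀ w, v ∈ B w → D w pv < D w v)) ∧
      (∀ w, pv ∈ B w ↔ v ∈ B w) ∧ (∀ w, v ∈ B w → pv = v → v = root w) ∧
      ((¬ ∃ w, v ∈ B w) → pv = v) := by
    intro v
    by_cases h : ∃ w, v ∈ B w
    · obtain ⟨w, hw⟩ := h
      by_cases hr : v = root w
      · refine ⟨v, Or.inl rfl, fun w => Iff.rfl, ?_, fun _ => rfl⟩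
        intro w' hw' _
        rw [← huniq w w' v hw hw']
        exact hr
      · obtain ⟨u', hu1, hu2, hu3⟩ := hpar w v hw hr
        refine ⟨u', Or.inr ⟨hu2, ?_⟩, ?_, ?_, ?_⟩
        · intro w' hw'
          rw [← huniq w w' v hw hw']
          exact hu3
        · intro w'
          constructor
          · intro h1
            rw [← huniq w w' u' hu1 h1]; exact hw
          · intro h1
            rw [← huniq w w' v hw h1]; exact hu1
        · intro w' hw' he
          exact absurd he hu2.ne
        · intro hcon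
          exact absurd ⟨w, hw⟩ hcon
    · refine ⟨v, Or.inl rfl, fun w => Iff.rfl, ?_, fun _ => rfl⟩
      intro w' hw' _
      exact absurd ⟨w', hw'⟩ h
  choose par hp1 hp2 hp3 hp4 using key
  let dep : V → ℕ := fun v => if h : ∃ w, v ∈ B w then D h.choose v else 0
  have hdep : ∀ w v, v ∈ B w → dep v = D w v := by
    intro w v hv
    have h : ∃ w, v ∈ B w := ⟨w, hv⟩
    simp only [dep, dif_pos h]
    rw [huniq _ _ v h.choose_spec hv]
  refine ⟨par, dep, ?_, fun w v => hp2 v w, fun w v hv => hp3 v w hv, ?_⟩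
  · intro v
    rcases hp1 v with h | ⟨h1, h2⟩
    · exact Or.inl h
    · right
      refine ⟨h1, ?_⟩
      by_cases h : ∃ w, v ∈ B w
      · obtain ⟨w, hw⟩ := h
        rw [hdep w v hw, hdep w (par v) ((hp2 v w).2 hw)]
        exact h2 w hw
      · exact absurd (hp4 v h) h1.ne
  · intro v
    by_cases h : ∃ w, v ∈ B w
    · obtain ⟨w, hw⟩ := h
      rw [hdep w v hw]
      exact hD3 w v hw
    · simp [dep, h]

section forest

variable {V : Type} (G : SimpleGraph V) (par : V → V) (dep : V → ℕ)

/-- `anc par u v`: `u` is an ancestor of `v` (or equal) in the forest. -/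
def anc (u v : V) : Prop := ∃ k : ℕ, par^[k] v = u

lemma anc_refl (v : V) : anc par v v := ⟨0, rfl⟩

lemma anc_trans {u v w : V} (h1 : anc par u v) (h2 : anc par v w) : anc par u w := by
  obtain ⟨k, hk⟩ := h1
  obtain ⟨m, hm⟩ := h2
  exact ⟨k + m, by rw [Function.iterate_add_apply, hm, hk]⟩

variable {G par dep}
  (hpar : ∀ v, par v = v ∨ (G.Adj (par v) v ∧ dep (par v) < dep v))

include hpar

lemma dep_iter (k : ℕ) (v : V) : par^[k] v = v ∨ dep (par^[k] v) < dep v := by
  induction k with
  | zero => left; rfl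
  | succ k ih =>
    rw [Function.iterate_succ_apply']
    rcases hpar (par^[k] v) with h | ⟨_, h⟩
    · rw [h]; exact ih
    · right
      rcases ih with h' | h'
      · rw [h'] at h ⊢; exact h
      · exact h.trans h'

lemma anc_dep {u v : V} (h : anc par u v) : u = v ∨ dep u < dep v := by
  obtain ⟨k, rfl⟩ := h
  exact dep_iter hpar k v

lemma anc_antisymm {u v : V} (h1 : anc par u v) (h2 : anc par v u) : u = v := by
  rcases anc_dep hpar h1 with h | h
  · exact h
  · rcases anc_dep hpar h2 with h' | h'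
    · exact h'.symm
    · omega

omit hpar in
lemma anc_step {u v : V} (h : anc par u v) (hne : u ≠ v) : anc par u (par v) := by
  obtain ⟨k, hk⟩ := h
  cases k with
  | zero => exact absurd hk.symm hne
  | succ k =>
    rw [Function.iterate_succ_apply] at hk
    exact ⟨k, hk⟩

omit hpar in
lemma anc_mem {B : Set V} (hB : ∀ v, par v ∈ B ↔ v ∈ B) {u v : V} (h : anc par u v) :
    u ∈ B ↔ v ∈ B := by
  obtain ⟨k, rfl⟩ := h
  induction k with
  | zero => rfl
  | succ k ih =>
    rw [Function.iterate_succ_apply', hB]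
    exact ih

lemma anc_root {B : Set V} {ρ : V} (hB : ∀ v, par v ∈ B ↔ v ∈ B)
    (hρ : ∀ v ∈ B, par v = v → v = ρ) (n : ℕ) :
    ∀ v ∈ B, dep v = n → anc par ρ v := by
  induction n using Nat.strong_induction_on with
  | _ n ih =>
    intro v hv hn
    rcases hpar v with h | ⟨_, h⟩
    · rw [← hρ v hv h]; exact anc_refl par v
    · have h1 := ih (dep (par v)) (by omega) (par v) ((hB v).2 hv) rfl
      exact anc_trans par h1 ⟨1, rfl⟩

end forest

/-- The poset: A-trees hang upwards, B-trees hang downwards, cross edges go up. -/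
theorem dim_crossing {V W : Type} [Fintype V] [Fintype W]
    (C : ∀ V : Type, SimpleGraph V → Prop)
    (hC : ∀ (V W : Type) (G : SimpleGraph V) (H : SimpleGraph W) (f : H →g G),
        Function.Injective f → C V G → C W H)
    (r d : ℕ)
    (hd : ∀ (P : Type) [Fintype P] [PartialOrder P],
        (∀ s : Finset P, IsChain (· ≤ ·) (s : Set P) → s.card ≤ 2 * r + 2) →
        C P (SimpleGraph.fromRel (fun x y : P => x ⋖ y)) →
        ∃ f : Fin d → P → ℕ, (∀ i, Function.Injective (f i)) ∧
          ∀ x y : P, x ≤ y ↔ ∀ i, f i x ≤ f i y)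
    (G : SimpleGraph V) (hG : C V G) (B : W → Set V)
    (hdisj : ∀ w w', w ≠ w' → Disjoint (B w) (B w'))
    (root : W → V) (hroot : ∀ w, root w ∈ B w)
    (hwalk : ∀ w, ∀ u ∈ B w, ∃ p : G.Walk (root w) u, p.length ≤ r ∧ ∀ x ∈ p.support, x ∈ B w)
    (A : W → Bool) (S : Set (W × W))
    (hS : ∀ p ∈ S, A p.1 = true ∧ A p.2 = false ∧ ∃ u ∈ B p.1, ∃ u' ∈ B p.2, G.Adj u u') :
    ∃ f : Fin d → V → ℕ, (∀ i, Function.Injective (f i)) ∧
      ∀ p : W × W, A p.1 = true → A p.2 = false →
        (p ∈ S ↔ ∀ i, f i (root p.1) ≤ f i (root p.2)) := by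
  classical
  obtain ⟨par, dep, hpar, hB, hrt, hdep⟩ := exists_forest G B r hdisj root hroot hwalk
  have huniq : ∀ w w' v, v ∈ B w → v ∈ B w' → w = w' := by
    intro w w' v h1 h2
    by_contra hne
    exact (Set.disjoint_left.1 (hdisj w w' hne)) h1 h2
  have hS' : ∀ p : S, ∃ u u', u ∈ B p.1.1 ∧ u' ∈ B p.1.2 ∧ G.Adj u u' := by
    intro p
    obtain ⟨_, _, u, hu, u', hu', h⟩ := hS p.1 p.2
    exact ⟨u, u', hu, hu', h⟩
  choose us vs hus hvs huv using hS'
  let isA : V → Prop := fun x => ∃ w, A w = true ∧ x ∈ B w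
  have hisApar : ∀ x, isA (par x) ↔ isA x := by
    intro x
    simp only [isA, hB]
  let E : V → V → Prop := fun a b => ∃ p : S, a = us p ∧ b = vs p
  have hEA : ∀ a b, E a b → isA a := by
    rintro a b ⟨p, rfl, rfl⟩
    exact ⟨p.1.1, (hS p.1 p.2).1, hus p⟩
  have hEB : ∀ a b, E a b → ¬ isA b := by
    rintro a b ⟨p, rfl, rfl⟩ ⟨w, hw, hw'⟩
    have h1 := huniq _ _ _ hw' (hvs p)
    have h2 := (hS p.1 p.2).2.1
    rw [← h1, hw] at h2
    exact absurd h2 (by simp)
  have hEadj : ∀ a b, E a b → G.Adj a b := by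
    rintro a b ⟨p, rfl, rfl⟩
    exact huv p
  let le : V → V → Prop := fun x y =>
    (isA x ∧ isA y ∧ anc par x y) ∨ (¬ isA x ∧ ¬ isA y ∧ anc par y x) ∨
      (isA x ∧ ¬ isA y ∧ ∃ a b, E a b ∧ anc par x a ∧ anc par y b)
  have hle_AA : ∀ x y, isA x → isA y → (le x y ↔ anc par x y) := by
    intro x y hx hy
    simp [le, hx, hy]
  have hle_BB : ∀ x y, ¬ isA x → ¬ isA y → (le x y ↔ anc par y x) := by
    intro x y hx hy
    simp [le, hx, hy]
  have hle_AB : ∀ x y, isA x → ¬ isA y →
      (le x y ↔ ∃ a b, E a b ∧ anc par x a ∧ anc par y b) := by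
    intro x y hx hy
    simp [le, hx, hy]
  have hle_BA : ∀ x y, ¬ isA x → isA y → ¬ le x y := by
    intro x y hx hy
    simp [le, hx, hy]
  let po : PartialOrder V :=
    { le := le
      le_refl := by
        intro x
        by_cases hx : isA x
        · exact (hle_AA x x hx hx).2 (anc_refl par x)
        · exact (hle_BB x x hx hx).2 (anc_refl par x)
      le_trans := by
        intro x y z hxy hyz
        by_cases hx : isA x <;> by_cases hy : isA y <;> by_cases hz : isA z
        · exact (hle_AA x z hx hz).2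
            (anc_trans par ((hle_AA x y hx hy).1 hxy) ((hle_AA y z hy hz).1 hyz))
        · obtain ⟨a, b, h1, h2, h3⟩ := (hle_AB y z hy hz).1 hyz
          exact (hle_AB x z hx hz).2 ⟨a, b, h1, anc_trans par ((hle_AA x y hx hy).1 hxy) h2, h3⟩
        · exact absurd hyz (hle_BA y z hy hz)
        · obtain ⟨a, b, h1, h2, h3⟩ := (hle_AB x y hx hy).1 hxy
          exact (hle_AB x z hx hz).2 ⟨a, b, h1, h2, anc_trans par ((hle_BB y z hy hz).1 hyz) h3⟩
        · exact absurd hxy (hle_BA x y hx hy)
        · exact absurd hxy (hle_BA x y hx hy)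
        · exact absurd hyz (hle_BA y z hy hz)
        · exact (hle_BB x z hx hz).2
            (anc_trans par ((hle_BB y z hy hz).1 hyz) ((hle_BB x y hx hy).1 hxy))
      le_antisymm := by
        intro x y hxy hyx
        by_cases hx : isA x <;> by_cases hy : isA y
        · exact anc_antisymm hpar ((hle_AA x y hx hy).1 hxy) ((hle_AA y x hy hx).1 hyx)
        · exact absurd hyx (hle_BA y x hy hx)
        · exact absurd hxy (hle_BA x y hx hy)
        · exact anc_antisymm hpar ((hle_BB y x hy hx).1 hyx) ((hle_BB x y hx hy).1 hxy) }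
  have hle_def : ∀ x y : V, x ≤ y ↔ le x y := fun x y => Iff.rfl
  -- height
  let rk : V → ℕ := fun x => if isA x then dep x else 2 * r + 1 - dep x
  have hrk_lt : ∀ x y : V, x ≤ y → x ≠ y → rk x < rk y := by
    intro x y hxy hne
    rw [hle_def] at hxy
    have hdx := hdep x
    have hdy := hdep y
    by_cases hx : isA x <;> by_cases hy : isA y
    · have h1 := (hle_AA x y hx hy).1 hxy
      rcases anc_dep hpar h1 with h | h
      · exact absurd h hne
      · simp only [rk, if_pos hx, if_pos hy]; exact h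
    · simp only [rk, if_pos hx, if_neg hy]; omega
    · exact absurd hxy (hle_BA x y hx hy)
    · have h1 := (hle_BB x y hx hy).1 hxy
      rcases anc_dep hpar h1 with h | h
      · exact absurd h.symm hne
      · simp only [rk, if_neg hx, if_neg hy]; omega
  have hrk_le : ∀ x, rk x < 2 * r + 2 := by
    intro x
    have hdx := hdep x
    by_cases hx : isA x
    · simp only [rk, if_pos hx]; omega
    · simp only [rk, if_neg hx]; omega
  have hheight : ∀ s : Finset V, IsChain (· ≤ ·) (s : Set V) → s.card ≤ 2 * r + 2 := by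
    intro s hs
    have h1 : s.card ≤ (Finset.range (2 * r + 2)).card := by
      apply Finset.card_le_card_of_injOn rk
      · intro x _
        simpa using hrk_le x
      · intro x hx y hy hxy
        by_contra hne
        rcases hs hx hy hne with h | h
        · have := hrk_lt x y h hne; omega
        · have := hrk_lt y x h (Ne.symm hne); omega
    simpa using h1
  -- cover graph
  have hcov : ∀ x y : V, x ⋖ y → G.Adj x y := by
    intro x y hxy
    have hlt := hxy.lt
    have hle := (hle_def x y).1 hlt.le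
    have hne := hlt.ne
    have hbt : ∀ z : V, x ≤ z → z ≤ y → z = x ∨ z = y := by
      intro z h1 h2
      by_contra hcon
      push Not at hcon
      exact hxy.2 (lt_of_le_of_ne h1 (Ne.symm hcon.1)) (lt_of_le_of_ne h2 hcon.2)
    by_cases hx : isA x <;> by_cases hy : isA y
    · have h1 := (hle_AA x y hx hy).1 hle
      have h2 := anc_step h1 hne
      have hpy : isA (par y) := (hisApar y).2 hy
      rcases hbt (par y) ((hle_def _ _).2 ((hle_AA x _ hx hpy).2 h2))
        ((hle_def _ _).2 ((hle_AA _ y hpy hy).2 ⟨1, rfl⟩)) with h | h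
      · rcases hpar y with h' | ⟨h', _⟩
        · rw [h'] at h; exact absurd h.symm hne
        · rw [h] at h'; exact h'
      · rw [h] at h2
        obtain ⟨k, hk⟩ := h1
        have h3 : ∀ k, par^[k] y = y := by
          intro k
          induction k with
          | zero => rfl
          | succ k ih => rw [Function.iterate_succ_apply', ih, h]
        rw [h3 k] at hk
        exact absurd hk.symm hne
    · obtain ⟨a, b, h1, h2, h3⟩ := (hle_AB x y hx hy).1 hle
      have ha := hEA a b h1
      have hb := hEB a b h1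
      have hxa : x ≤ a := (hle_def _ _).2 ((hle_AA x a hx ha).2 h2)
      have hby : b ≤ y := (hle_def _ _).2 ((hle_BB b y hb hy).2 h3)
      have hab : a ≤ b := (hle_def _ _).2
        ((hle_AB a b ha hb).2 ⟨a, b, h1, anc_refl par a, anc_refl par b⟩)
      have hax : a = x := by
        rcases hbt a hxa (hab.trans hby) with h | h
        · exact h
        · rw [h] at ha; exact absurd ha hy
      have hbyy : b = y := by
        rcases hbt b (hxa.trans hab) hby with h | h
        · rw [h] at hb; exact absurd hx hb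
        · exact h
      have := hEadj a b h1
      rwa [hax, hbyy] at this
    · exact absurd hle (hle_BA x y hx hy)
    · have h1 := (hle_BB x y hx hy).1 hle
      have h2 := anc_step h1 (Ne.symm hne)
      have hpx : ¬ isA (par x) := fun h => hx ((hisApar x).1 h)
      rcases hbt (par x) ((hle_def _ _).2 ((hle_BB x _ hx hpx).2 ⟨1, rfl⟩))
        ((hle_def _ _).2 ((hle_BB _ y hpx hy).2 h2)) with h | h
      · obtain ⟨k, hk⟩ := h1
        have h3 : ∀ k, par^[k] x = x := by
          intro k
          induction k with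
          | zero => rfl
          | succ k ih => rw [Function.iterate_succ_apply', ih, h]
        rw [h3 k] at hk
        exact absurd hk hne
      · rcases hpar x with h' | ⟨h', _⟩
        · rw [h'] at h; exact absurd h hne
        · rw [h] at h'; exact h'.symm
  have hCov : C V (SimpleGraph.fromRel (fun x y : V => x ⋖ y)) := by
    refine hC V V G _ ⟨id, ?_⟩ Function.injective_id hG
    intro x y hxy
    rw [SimpleGraph.fromRel_adj] at hxy
    rcases hxy.2 with h | h
    · exact hcov x y h
    · exact (hcov y x h).symm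
  obtain ⟨f, hf1, hf2⟩ := hd V hheight hCov
  refine ⟨f, hf1, ?_⟩
  intro p hp1 hp2
  rw [← hf2, hle_def]
  have hrA : isA (root p.1) := ⟨p.1, hp1, hroot _⟩
  have hrB : ¬ isA (root p.2) := by
    rintro ⟨w, hw, hw'⟩
    have h1 := huniq _ _ _ hw' (hroot p.2)
    rw [h1, hp2] at hw
    exact absurd hw (by simp)
  rw [hle_AB _ _ hrA hrB]
  constructor
  · intro hp
    refine ⟨us ⟨p, hp⟩, vs ⟨p, hp⟩, ⟨⟨p, hp⟩, rfl, rfl⟩, ?_, ?_⟩
    · exact anc_root hpar (fun v => hB p.1 v) (hrt p.1) _ _ (hus ⟨p, hp⟩) rfl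
    · exact anc_root hpar (fun v => hB p.2 v) (hrt p.2) _ _ (hvs ⟨p, hp⟩) rfl
  · rintro ⟨a, b, ⟨q, rfl, rfl⟩, h2, h3⟩
    have h4 : root p.1 ∈ B q.1.1 := (anc_mem (fun v => hB q.1.1 v) h2).2 (hus q)
    have h5 : root p.2 ∈ B q.1.2 := (anc_mem (fun v => hB q.1.2 v) h3).2 (hvs q)
    have h6 : p.1 = q.1.1 := huniq _ _ _ (hroot p.1) h4
    have h7 : p.2 = q.1.2 := huniq _ _ _ (hroot p.2) h5
    have h8 : p = q.1 := Prod.ext h6 h7
    rw [h8]
    exact q.2

theorem main
    (C : ∀ V : Type, SimpleGraph V → Prop)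
    (hC : ∀ (V W : Type) (G : SimpleGraph V) (H : SimpleGraph W) (f : H →g G),
        Function.Injective f → C V G → C W H)
    (hdim : ∀ h : ℕ, 1 ≤ h → ∃ d : ℕ, ∀ (P : Type) [Fintype P] [PartialOrder P],
        (∀ s : Finset P, IsChain (· ≤ ·) (s : Set P) → s.card ≤ h) →
        C P (SimpleGraph.fromRel (fun x y : P => x ⋖ y)) →
        ∃ f : Fin d → P → ℕ, (∀ i, Function.Injective (f i)) ∧
          ∀ x y : P, x ≤ y ↔ ∀ i, f i x ≤ f i y)
    (r : ℕ) : ∃ c : ℕ, ∀ (V W : Type) [Fintype V] [Fintype W]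
        (G : SimpleGraph V) (H : SimpleGraph W),
      C V G →
      (∃ B : W → Set V, (∀ w w', w ≠ w' → Disjoint (B w) (B w')) ∧
        (∀ w, ∃ v ∈ B w, ∀ u ∈ B w, ∃ p : G.Walk v u,
            p.length ≤ r ∧ ∀ x ∈ p.support, x ∈ B w) ∧
        (∀ w w', H.Adj w w' → ∃ u ∈ B w, ∃ u' ∈ B w', G.Adj u u')) →
      Nat.card H.edgeSet ≤ c * Fintype.card W := by
  classical
  obtain ⟨d, hd⟩ := hdim (2 * r + 2) (by omega)
  refine ⟨2 * (8 * (d + 1) ^ 2), ?_⟩
  intro V W _ _ G H hG ⟨B, hdisj, hrad, hadj⟩
  choose root hroot hwalk using hrad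
  have huniq : ∀ w w' v, v ∈ B w → v ∈ B w' → w = w' := by
    intro w w' v h1 h2
    by_contra hne
    exact (Set.disjoint_left.1 (hdisj w w' hne)) h1 h2
  have hrinj : Function.Injective root := by
    intro w w' h
    exact huniq w w' (root w) (hroot w) (h ▸ hroot w')
  have hcut : ∀ A : W → Bool, (Finset.univ.filter
      (fun p : W × W => H.Adj p.1 p.2 ∧ A p.1 = true ∧ A p.2 = false)).card
      ≤ 8 * (d + 1) ^ 2 * Fintype.card W := by
    intro A
    let α : Type := {p : W × W // H.Adj p.1 p.2 ∧ A p.1 = true ∧ A p.2 = false}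
    have hαc : (Finset.univ.filter
      (fun p : W × W => H.Adj p.1 p.2 ∧ A p.1 = true ∧ A p.2 = false)).card
      = Fintype.card α := by
      rw [Fintype.card_subtype]
    rw [hαc]
    apply count_bound d (fun p : α => p.1.1) (fun p : α => p.1.2) (fun p => p.2.1.ne)
    intro S
    let S' : Set (W × W) := {p | ∃ h : H.Adj p.1 p.2 ∧ A p.1 = true ∧ A p.2 = false,
      (⟨p, h⟩ : α) ∈ S}
    obtain ⟨f, hf1, hf2⟩ := dim_crossing C hC r d hd G hG B hdisj root hroot hwalk A S' (by
      rintro p ⟨⟨h1, h2, h3⟩, _⟩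
      exact ⟨h2, h3, hadj _ _ h1⟩)
    refine ⟨fun i w => f i (root w), fun i => (hf1 i).comp hrinj, ?_⟩
    intro p
    have h1 : p ∈ S ↔ p.1 ∈ S' := by
      constructor
      · intro h; exact ⟨p.2, h⟩
      · rintro ⟨_, h⟩; exact h
    rw [h1, hf2 p.1 p.2.2.1 p.2.2.2]
    apply forall_congr'
    intro i
    constructor
    · intro h
      apply lt_of_le_of_ne h
      intro he
      exact p.2.1.ne (hrinj (hf1 i he))
    · intro h; exact h.le
  have h1 := cut_avg H _ hcut
  have h2 : Nat.card H.edgeSet = H.edgeFinset.card := by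
    rw [Nat.card_eq_fintype_card, SimpleGraph.edgeFinset, Set.toFinset_card]
  rw [h2]
  calc _ ≤ _ := h1
    _ = _ := by ring

end Pool.Agent.H984R3.BExp
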