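import Mathlib

/-!
Triangle-free intersection graphs of axis-parallel boxes in three-space with large chromatic
number (a Burling-type recursion).
-/

namespace Pool.Agent.H984R3.Burl

/-- an axis-parallel box given by its six faces -/
structure Box where
  x0 : ℚ
  x1 : ℚ
  y0 : ℚ
  y1 : ℚ
  z0 : ℚ
  z1 : ℚ

/-- the boxes intersect -/
def Box.Meets (b c : Box) : Prop :=
  b.x0 ≤ c.x1 ∧ c.x0 ≤ b.x1 ∧ b.y0 ≤ c.y1 ∧ c.y0 ≤ b.y1 ∧ b.z0 ≤ c.z1 ∧ c.z0 ≤ b.z1

theorem Box.Meets.symm {b c : Box} (h : b.Meets c) : c.Meets b :=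
  ⟨h.2.1, h.1, h.2.2.2.1, h.2.2.1, h.2.2.2.2.2, h.2.2.2.2.1⟩

/-- inside the unit cube -/
def Box.Unit (b : Box) : Prop :=
  0 ≤ b.x0 ∧ b.x0 ≤ b.x1 ∧ b.x1 ≤ 1 ∧ 0 ≤ b.y0 ∧ b.y0 ≤ b.y1 ∧ b.y1 ≤ 1 ∧
    0 ≤ b.z0 ∧ b.z0 ≤ b.z1 ∧ b.z1 ≤ 1

/-- inside the unit cube, nondegenerate -/
def Box.SUnit (b : Box) : Prop :=
  0 ≤ b.x0 ∧ b.x0 < b.x1 ∧ b.x1 ≤ 1 ∧ 0 ≤ b.y0 ∧ b.y0 < b.y1 ∧ b.y1 ≤ 1 ∧
    0 ≤ b.z0 ∧ b.z0 < b.z1 ∧ b.z1 ≤ 1

/-- the object `w` crosses the probe `p` properly -/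
def Inn (p w : Box) : Prop :=
  p.x1 < w.x0 ∧ w.y0 < p.y0 ∧ p.y1 < w.y1 ∧ w.z0 < p.z0 ∧ p.z1 < w.z1

/-- the object `w` avoids the probe `p` -/
def Out (p w : Box) : Prop :=
  w.x1 < p.x0 ∨ w.y1 < p.y0 ∨ p.y1 < w.y0 ∨ w.z1 < p.z0

/-- disjoint `y`-ranges -/
def YSep (p q : Box) : Prop := p.y1 < q.y0 ∨ q.y1 < p.y0

/-- A configuration of objects and probes. -/
structure Conf (W R : Type) where
  bx : W → Box
  pb : R → Box
  C : R → Set W
  unit : ∀ w, (bx w).Unit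
  punit : ∀ p, (pb p).SUnit
  inn : ∀ p w, w ∈ C p → Inn (pb p) (bx w)
  out : ∀ p w, w ∉ C p → Out (pb p) (bx w)
  indep : ∀ p w w', w ∈ C p → w' ∈ C p → w ≠ w' → ¬ (bx w).Meets (bx w')
  tri : ∀ u v w, u ≠ v → v ≠ w → u ≠ w → (bx u).Meets (bx v) → (bx v).Meets (bx w) →
    ¬ (bx u).Meets (bx w)
  ysep : ∀ p q, p ≠ q → YSep (pb p) (pb q)

/-- affine image of `t` in the interval `[A, B]` -/
def aff (A B t : ℚ) : ℚ := A + (B - A) * t

theorem aff_le {A B s t : ℚ} (h : A < B) : aff A B s ≤ aff A B t ↔ s ≤ t := by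
  unfold aff
  have : 0 < B - A := sub_pos.2 h
  rw [add_le_add_iff_left, mul_le_mul_iff_right₀ this]

theorem aff_lt {A B s t : ℚ} (h : A < B) : aff A B s < aff A B t ↔ s < t := by
  rw [← not_le, aff_le h, not_le]

theorem aff_zero (A B : ℚ) : aff A B 0 = A := by simp [aff]

theorem aff_one (A B : ℚ) : aff A B 1 = B := by simp [aff]

theorem aff_ge {A B t : ℚ} (h : A < B) (ht : 0 ≤ t) : A ≤ aff A B t := by
  calc A = aff A B 0 := (aff_zero A B).symm
    _ ≤ _ := (aff_le h).2 ht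

theorem aff_le' {A B t : ℚ} (h : A < B) (ht : t ≤ 1) : aff A B t ≤ B := by
  calc aff A B t ≤ aff A B 1 := (aff_le h).2 ht
    _ = B := aff_one A B

/-- place the box `b` in the root box `p` -/
def place (p b : Box) : Box where
  x0 := aff p.x0 p.x1 b.x0
  x1 := aff p.x0 p.x1 b.x1
  y0 := aff p.y0 p.y1 b.y0
  y1 := aff p.y0 p.y1 b.y1
  z0 := aff p.z0 p.z1 b.z0
  z1 := aff p.z0 p.z1 b.z1

theorem place_meets {p b c : Box} (hp : p.SUnit) : (place p b).Meets (place p c) ↔ b.Meets c := by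
  obtain ⟨_, hx, _, _, hy, _, _, hz, _⟩ := hp
  unfold Box.Meets place
  simp only [aff_le hx, aff_le hy, aff_le hz]

theorem place_inn {p b c : Box} (hp : p.SUnit) (h : Inn b c) : Inn (place p b) (place p c) := by
  obtain ⟨_, hx, _, _, hy, _, _, hz, _⟩ := hp
  unfold Inn place at *
  simp only [aff_lt hx, aff_lt hy, aff_lt hz]
  exact h

theorem place_out {p b c : Box} (hp : p.SUnit) (h : Out b c) : Out (place p b) (place p c) := by
  obtain ⟨_, hx, _, _, hy, _, _, hz, _⟩ := hp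
  unfold Out place at *
  simp only [aff_lt hx, aff_lt hy, aff_lt hz]
  exact h

/-- `b` lies inside `p` -/
def Inside (p b : Box) : Prop :=
  p.x0 ≤ b.x0 ∧ b.x0 ≤ b.x1 ∧ b.x1 ≤ p.x1 ∧ p.y0 ≤ b.y0 ∧ b.y0 ≤ b.y1 ∧ b.y1 ≤ p.y1 ∧
    p.z0 ≤ b.z0 ∧ b.z0 ≤ b.z1 ∧ b.z1 ≤ p.z1

theorem place_inside {p b : Box} (hp : p.SUnit) (hb : b.Unit) : Inside p (place p b) := by
  obtain ⟨_, hx, _, _, hy, _, _, hz, _⟩ := hp
  obtain ⟨h1, h2, h3, h4, h5, h6, h7, h8, h9⟩ := hb
  exact ⟨aff_ge hx h1, (aff_le hx).2 h2, aff_le' hx h3, aff_ge hy h4, (aff_le hy).2 h5,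
    aff_le' hy h6, aff_ge hz h7, (aff_le hz).2 h8, aff_le' hz h9⟩

theorem Box.SUnit.unit {b : Box} (h : b.SUnit) : b.Unit :=
  ⟨h.1, h.2.1.le, h.2.2.1, h.2.2.2.1, h.2.2.2.2.1.le, h.2.2.2.2.2.1, h.2.2.2.2.2.2.1,
    h.2.2.2.2.2.2.2.1.le, h.2.2.2.2.2.2.2.2⟩

theorem place_unit {p b : Box} (hp : p.SUnit) (hb : b.Unit) : (place p b).Unit := by
  obtain ⟨a1, a2, a3, a4, a5, a6, a7, a8, a9⟩ := place_inside hp hb
  obtain ⟨b1, b2, b3, b4, b5, b6, b7, b8, b9⟩ := hp
  exact ⟨b1.trans a1, a2, a3.trans b3, b4.trans a4, a5, a6.trans b6, b7.trans a7, a8, a9.trans b9⟩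

theorem place_sunit {p b : Box} (hp : p.SUnit) (hb : b.SUnit) : (place p b).SUnit := by
  obtain ⟨a1, a2, a3, a4, a5, a6, a7, a8, a9⟩ := place_inside hp hb.unit
  obtain ⟨b1, b2, b3, b4, b5, b6, b7, b8, b9⟩ := hp
  obtain ⟨c1, c2, c3, c4, c5, c6, c7, c8, c9⟩ := hb
  exact ⟨b1.trans a1, (aff_lt b2).2 c2, a3.trans b3, b4.trans a4, (aff_lt b5).2 c5,
    a6.trans b6, b7.trans a7, (aff_lt b8).2 c8, a9.trans b9⟩

/-! ### Composition -/

section Compose

variable {W R V S : Type} (c : Conf W R) (d : Conf V S)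

/-- the boxes of the composition -/
def cbx : W ⊕ (R × V) → Box := fun x => match x with
  | Sum.inl w => c.bx w
  | Sum.inr (p, v) => place (c.pb p) (d.bx v)

/-- the probes of the composition -/
def cpb : R × S → Box := fun x => place (c.pb x.1) (d.pb x.2)

/-- crossing sets of the composition -/
def cC : R × S → Set (W ⊕ (R × V)) := fun x y => match y with
  | Sum.inl w => w ∈ c.C x.1
  | Sum.inr (p, v) => p = x.1 ∧ v ∈ d.C x.2

theorem mem_cC_inl (x : R × S) (w : W) : (Sum.inl w : W ⊕ (R × V)) ∈ cC c d x ↔ w ∈ c.C x.1 :=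
  Iff.rfl

theorem mem_cC_inr (x : R × S) (p : R) (v : V) :
    (Sum.inr (p, v) : W ⊕ (R × V)) ∈ cC c d x ↔ p = x.1 ∧ v ∈ d.C x.2 :=
  Iff.rfl

/-- an outer object does not meet anything inside a root box -/
theorem not_meets_inside (p : R) (w : W) {b : Box} (hb : Inside (c.pb p) b) :
    ¬ (c.bx w).Meets b := by
  rintro ⟨m1, m2, m3, m4, m5, m6⟩
  obtain ⟨a1, a2, a3, a4, a5, a6, a7, a8, a9⟩ := hb
  by_cases h : w ∈ c.C p
  · have := (c.inn p w h).1
    linarith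
  · rcases c.out p w h with h | h | h | h <;> linarith

theorem ysep_inside {p q b b' : Box} (h : YSep p q) (hb : Inside p b) (hb' : Inside q b') :
    YSep b b' := by
  obtain ⟨a1, a2, a3, a4, a5, a6, a7, a8, a9⟩ := hb
  obtain ⟨c1, c2, c3, c4, c5, c6, c7, c8, c9⟩ := hb'
  rcases h with h | h
  · left; linarith
  · right; linarith

theorem not_meets_of_ysep {b b' : Box} (h : YSep b b') : ¬ b.Meets b' := by
  rintro ⟨m1, m2, m3, m4, m5, m6⟩
  rcases h with h | h <;> linarith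

theorem out_of_ysep {b b' : Box} (h : YSep b b') : Out b b' := by
  rcases h with h | h
  · exact Or.inr (Or.inr (Or.inl h))
  · exact Or.inr (Or.inl h)

/-- The composition of two configurations. -/
def compose : Conf (W ⊕ (R × V)) (R × S) where
  bx := cbx c d
  pb := cpb c d
  C := cC c d
  unit := by
    rintro (w | ⟨p, v⟩)
    · exact c.unit w
    · exact place_unit (c.punit p) (d.unit v)
  punit := by
    rintro ⟨p, s⟩
    exact place_sunit (c.punit p) (d.punit s)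
  inn := by
    rintro ⟨p, s⟩ (w | ⟨q, v⟩) h
    · rw [mem_cC_inl] at h
      obtain ⟨i1, i2, i3, i4, i5⟩ := c.inn p w h
      obtain ⟨a1, a2, a3, a4, a5, a6, a7, a8, a9⟩ := place_inside (c.punit p) (d.punit s).unit
      refine ⟨?_, ?_, ?_, ?_, ?_⟩
      · exact lt_of_le_of_lt a3 i1
      · exact lt_of_lt_of_le i2 a4
      · exact lt_of_le_of_lt a6 i3
      · exact lt_of_lt_of_le i4 a7
      · exact lt_of_le_of_lt a9 i5
    · rw [mem_cC_inr] at h
      obtain ⟨rfl, h⟩ := h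
      exact place_inn (c.punit _) (d.inn s v h)
  out := by
    rintro ⟨p, s⟩ (w | ⟨q, v⟩) h
    · rw [mem_cC_inl] at h
      obtain ⟨a1, a2, a3, a4, a5, a6, a7, a8, a9⟩ := place_inside (c.punit p) (d.punit s).unit
      rcases c.out p w h with h | h | h | h
      · exact Or.inl (lt_of_lt_of_le h a1)
      · exact Or.inr (Or.inl (lt_of_lt_of_le h a4))
      · exact Or.inr (Or.inr (Or.inl (lt_of_le_of_lt a6 h)))
      · exact Or.inr (Or.inr (Or.inr (lt_of_lt_of_le h a7)))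
    · rw [mem_cC_inr] at h
      by_cases hqp : q = p
      · subst hqp
        have hv : v ∉ d.C s := fun hv => h ⟨rfl, hv⟩
        exact place_out (c.punit _) (d.out s v hv)
      · exact out_of_ysep (ysep_inside (c.ysep p q (Ne.symm hqp))
          (place_inside (c.punit p) (d.punit s).unit) (place_inside (c.punit q) (d.unit v)))
  indep := by
    rintro ⟨p, s⟩ (w | ⟨q, v⟩) (w' | ⟨q', v'⟩) h h' hne
    · rw [mem_cC_inl] at h h'
      exact c.indep p w w' h h' fun e => hne (by rw [e])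
    · exact not_meets_inside c q' w (place_inside (c.punit q') (d.unit v'))
    · exact fun hm => not_meets_inside c q w' (place_inside (c.punit q) (d.unit v)) hm.symm
    · rw [mem_cC_inr] at h h'
      obtain ⟨rfl, h⟩ := h
      obtain ⟨rfl, h'⟩ := h'
      intro hm
      exact d.indep s v v' h h' (fun e => hne (by rw [e])) ((place_meets (c.punit _)).1 hm)
  tri := by
    have key : ∀ (p q : R) (v v' : V), (place (c.pb p) (d.bx v)).Meets (place (c.pb q) (d.bx v')) →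
        p = q := by
      intro p q v v' hm
      by_contra hpq
      exact not_meets_of_ysep (ysep_inside (c.ysep p q hpq)
        (place_inside (c.punit p) (d.unit v)) (place_inside (c.punit q) (d.unit v'))) hm
    have k1 : ∀ (w : W) (q : R) (v : V), ¬ (c.bx w).Meets (place (c.pb q) (d.bx v)) :=
      fun w q v => not_meets_inside c q w (place_inside (c.punit q) (d.unit v))
    have k2 : ∀ (w : W) (q : R) (v : V), ¬ (place (c.pb q) (d.bx v)).Meets (c.bx w) :=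
      fun w q v hm => k1 w q v hm.symm
    rintro (u | ⟨p, u⟩) (v | ⟨q, v⟩) (w | ⟨r, w⟩) h1 h2 h3 m1 m2 m3
    · exact c.tri u v w (fun e => h1 (by rw [e])) (fun e => h2 (by rw [e]))
        (fun e => h3 (by rw [e])) m1 m2 m3
    · exact k1 _ _ _ m2
    · exact k1 _ _ _ m1
    · exact k1 _ _ _ m1
    · exact k2 _ _ _ m1
    · exact k2 _ _ _ m1
    · exact k2 _ _ _ m2
    · have e1 := key p q u v m1
      subst e1
      have e2 := key p r v w m2
      subst e2
      exact d.tri u v w (fun e => h1 (by rw [e])) (fun e => h2 (by rw [e]))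
        (fun e => h3 (by rw [e])) ((place_meets (c.punit _)).1 m1)
        ((place_meets (c.punit _)).1 m2) ((place_meets (c.punit _)).1 m3)
  ysep := by
    rintro ⟨p, s⟩ ⟨q, t⟩ hne
    by_cases hpq : p = q
    · subst hpq
      have hst : s ≠ t := fun e => hne (by rw [e])
      have hy := (c.punit p).2.2.2.2.1
      rcases d.ysep s t hst with h | h
      · exact Or.inl ((aff_lt hy).2 h)
      · exact Or.inr ((aff_lt hy).2 h)
    · exact ysep_inside (c.ysep p q hpq) (place_inside (c.punit p) (d.punit s).unit)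
        (place_inside (c.punit q) (d.punit t).unit)

end Compose

end Pool.Agent.H984R3.Burl
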