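import Mathlib
import Pool.Agent.H984R3.Burl

namespace Pool.Agent.H984R3.Burl

section Inner

variable {W R : Type} (c : Conf W R)

/-- flatten an object to the lower half -/
def flat (b : Box) : Box where
  x0 := b.x0
  x1 := b.x1
  y0 := b.y0
  y1 := b.y1
  z0 := b.z0 / 2
  z1 := b.z1 / 2

/-- the long object over a probe -/
def dbox (p : Box) : Box where
  x0 := p.x1
  x1 := 1
  y0 := aff p.y0 p.y1 (1 / 8)
  y1 := aff p.y0 p.y1 (4 / 8)
  z0 := p.z0 / 2
  z1 := 7 / 8

/-- upper new probe -/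
def uprobe (p : Box) : Box where
  x0 := p.x0
  x1 := p.x1
  y0 := aff p.y0 p.y1 (5 / 8)
  y1 := aff p.y0 p.y1 (6 / 8)
  z0 := p.z0 / 2
  z1 := p.z1 / 2

/-- lower new probe -/
def lprobe (p : Box) : Box where
  x0 := p.x0
  x1 := (p.x0 + p.x1) / 2
  y0 := aff p.y0 p.y1 (2 / 8)
  y1 := aff p.y0 p.y1 (3 / 8)
  z0 := 5 / 8
  z1 := 6 / 8

def ibx : W ⊕ R → Box := fun x => match x with
  | Sum.inl w => flat (c.bx w)
  | Sum.inr q => dbox (c.pb q)

def ipb : R ⊕ R → Box := fun x => match x with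
  | Sum.inl q => uprobe (c.pb q)
  | Sum.inr q => lprobe (c.pb q)

def iC : R ⊕ R → Set (W ⊕ R) := fun x y => match x, y with
  | Sum.inl q, Sum.inl w => w ∈ c.C q
  | Sum.inl _, Sum.inr _ => False
  | Sum.inr _, Sum.inl _ => False
  | Sum.inr q, Sum.inr q' => q' = q

theorem mem_iC_ll (q : R) (w : W) : (Sum.inl w : W ⊕ R) ∈ iC c (Sum.inl q) ↔ w ∈ c.C q := Iff.rfl
theorem mem_iC_lr (q : R) (r : R) : (Sum.inr r : W ⊕ R) ∈ iC c (Sum.inl q) ↔ False := Iff.rfl
theorem mem_iC_rl (q : R) (w : W) : (Sum.inl w : W ⊕ R) ∈ iC c (Sum.inr q) ↔ False := Iff.rfl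
theorem mem_iC_rr (q : R) (r : R) : (Sum.inr r : W ⊕ R) ∈ iC c (Sum.inr q) ↔ r = q := Iff.rfl

theorem flat_meets {b b' : Box} : (flat b).Meets (flat b') ↔ b.Meets b' := by
  unfold Box.Meets flat
  simp only [div_le_div_iff_of_pos_right (show (0 : ℚ) < 2 by norm_num)]

/-- elementary order facts about the fractions of a probe -/
theorem fr {p : Box} (hp : p.SUnit) : p.y0 < aff p.y0 p.y1 (1 / 8) ∧
    aff p.y0 p.y1 (1 / 8) < aff p.y0 p.y1 (2 / 8) ∧
    aff p.y0 p.y1 (2 / 8) < aff p.y0 p.y1 (3 / 8) ∧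
    aff p.y0 p.y1 (3 / 8) < aff p.y0 p.y1 (4 / 8) ∧
    aff p.y0 p.y1 (4 / 8) < aff p.y0 p.y1 (5 / 8) ∧
    aff p.y0 p.y1 (5 / 8) < aff p.y0 p.y1 (6 / 8) ∧ aff p.y0 p.y1 (6 / 8) < p.y1 := by
  have hy := hp.2.2.2.2.1
  unfold aff
  refine ⟨?_, ?_, ?_, ?_, ?_, ?_, ?_⟩ <;> linarith

/-- a long object meets exactly the flattened objects crossing the probe -/
theorem dbox_meets (q : R) (w : W) : (dbox (c.pb q)).Meets (flat (c.bx w)) ↔ w ∈ c.C q := by
  obtain ⟨f1, f2, f3, f4, f5, f6, f7⟩ := fr (c.punit q)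
  obtain ⟨u1, u2, u3, u4, u5, u6, u7, u8, u9⟩ := c.punit q
  obtain ⟨v1, v2, v3, v4, v5, v6, v7, v8, v9⟩ := c.unit w
  constructor
  · rintro ⟨m1, m2, m3, m4, m5, m6⟩
    simp only [dbox, flat] at m1 m2 m3 m4 m5 m6
    by_contra h
    rcases c.out q w h with h | h | h | h <;> linarith
  · intro h
    obtain ⟨i1, i2, i3, i4, i5⟩ := c.inn q w h
    refine ⟨?_, ?_, ?_, ?_, ?_, ?_⟩ <;> simp only [dbox, flat] <;> linarith

theorem dbox_ysep {q r : R} (h : q ≠ r) : YSep (dbox (c.pb q)) (dbox (c.pb r)) := by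
  obtain ⟨f1, f2, f3, f4, f5, f6, f7⟩ := fr (c.punit q)
  obtain ⟨g1, g2, g3, g4, g5, g6, g7⟩ := fr (c.punit r)
  rcases c.ysep q r h with h | h
  · left; simp only [dbox]; linarith
  · right; simp only [dbox]; linarith

/-- The inner configuration. -/
def inner : Conf (W ⊕ R) (R ⊕ R) where
  bx := ibx c
  pb := ipb c
  C := iC c
  unit := by
    rintro (w | q)
    · obtain ⟨v1, v2, v3, v4, v5, v6, v7, v8, v9⟩ := c.unit w
      refine ⟨?_, ?_, ?_, ?_, ?_, ?_, ?_, ?_, ?_⟩ <;> simp only [ibx, flat] <;> linarith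
    · obtain ⟨f1, f2, f3, f4, f5, f6, f7⟩ := fr (c.punit q)
      obtain ⟨v1, v2, v3, v4, v5, v6, v7, v8, v9⟩ := c.punit q
      refine ⟨?_, ?_, ?_, ?_, ?_, ?_, ?_, ?_, ?_⟩ <;> simp only [ibx, dbox] <;> linarith
  punit := by
    rintro (q | q)
    · obtain ⟨f1, f2, f3, f4, f5, f6, f7⟩ := fr (c.punit q)
      obtain ⟨v1, v2, v3, v4, v5, v6, v7, v8, v9⟩ := c.punit q
      refine ⟨?_, ?_, ?_, ?_, ?_, ?_, ?_, ?_, ?_⟩ <;> simp only [ipb, uprobe] <;> linarith
    · obtain ⟨f1, f2, f3, f4, f5, f6, f7⟩ := fr (c.punit q)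
      obtain ⟨v1, v2, v3, v4, v5, v6, v7, v8, v9⟩ := c.punit q
      refine ⟨?_, ?_, ?_, ?_, ?_, ?_, ?_, ?_, ?_⟩ <;> simp only [ipb, lprobe] <;> linarith
  inn := by
    rintro (q | q) (w | r) h
    · rw [mem_iC_ll] at h
      obtain ⟨f1, f2, f3, f4, f5, f6, f7⟩ := fr (c.punit q)
      obtain ⟨i1, i2, i3, i4, i5⟩ := c.inn q w h
      refine ⟨?_, ?_, ?_, ?_, ?_⟩ <;> simp only [ipb, ibx, uprobe, flat] <;> linarith
    · exact absurd h (by rw [mem_iC_lr]; exact id)
    · exact absurd h (by rw [mem_iC_rl]; exact id)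
    · rw [mem_iC_rr] at h
      subst h
      obtain ⟨f1, f2, f3, f4, f5, f6, f7⟩ := fr (c.punit r)
      obtain ⟨v1, v2, v3, v4, v5, v6, v7, v8, v9⟩ := c.punit r
      refine ⟨?_, ?_, ?_, ?_, ?_⟩ <;> simp only [ipb, ibx, lprobe, dbox] <;> linarith
  out := by
    rintro (q | q) (w | r) h
    · rw [mem_iC_ll] at h
      obtain ⟨f1, f2, f3, f4, f5, f6, f7⟩ := fr (c.punit q)
      unfold Out
      simp only [ipb, ibx, uprobe, flat]
      rcases c.out q w h with h | h | h | h
      · exact Or.inl h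
      · exact Or.inr (Or.inl (by linarith))
      · exact Or.inr (Or.inr (Or.inl (by linarith)))
      · exact Or.inr (Or.inr (Or.inr (by linarith)))
    · obtain ⟨f1, f2, f3, f4, f5, f6, f7⟩ := fr (c.punit q)
      obtain ⟨g1, g2, g3, g4, g5, g6, g7⟩ := fr (c.punit r)
      unfold Out
      simp only [ipb, ibx, uprobe, dbox]
      by_cases hqr : q = r
      · subst hqr
        exact Or.inr (Or.inl (by linarith))
      · rcases c.ysep q r hqr with h | h
        · exact Or.inr (Or.inr (Or.inl (by linarith)))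
        · exact Or.inr (Or.inl (by linarith))
    · obtain ⟨v1, v2, v3, v4, v5, v6, v7, v8, v9⟩ := c.unit w
      unfold Out
      simp only [ipb, ibx, lprobe, flat]
      exact Or.inr (Or.inr (Or.inr (by linarith)))
    · obtain ⟨f1, f2, f3, f4, f5, f6, f7⟩ := fr (c.punit q)
      obtain ⟨g1, g2, g3, g4, g5, g6, g7⟩ := fr (c.punit r)
      unfold Out
      simp only [ipb, ibx, lprobe, dbox]
      have hqr : q ≠ r := by
        rintro rfl
        exact h rfl
      rcases c.ysep q r hqr with h | h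
      · exact Or.inr (Or.inr (Or.inl (by linarith)))
      · exact Or.inr (Or.inl (by linarith))
  indep := by
    rintro (q | q) (w | r) (w' | r') h h' hne hm
    · exact c.indep q w w' h h' (fun e => hne (by rw [e])) (flat_meets.1 hm)
    · exact h'
    · exact h
    · exact h
    · exact h
    · exact h
    · exact h'
    · rw [mem_iC_rr] at h h'
      exact hne (by rw [h, h'])
  tri := by
    have k1 : ∀ q r : R, q ≠ r → ¬ (dbox (c.pb q)).Meets (dbox (c.pb r)) :=
      fun q r h => not_meets_of_ysep (dbox_ysep c h)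
    -- one long object and two flat ones
    have k2 : ∀ (q : R) (v w : W), v ≠ w → (dbox (c.pb q)).Meets (flat (c.bx v)) →
        (dbox (c.pb q)).Meets (flat (c.bx w)) → ¬ (flat (c.bx v)).Meets (flat (c.bx w)) := by
      intro q v w hvw hv hw hm
      exact c.indep q v w ((dbox_meets c q v).1 hv) ((dbox_meets c q w).1 hw) hvw (flat_meets.1 hm)
    rintro (u | p) (v | q) (w | r) h1 h2 h3 m1 m2 m3
    · exact c.tri u v w (fun e => h1 (by rw [e])) (fun e => h2 (by rw [e]))
        (fun e => h3 (by rw [e])) (flat_meets.1 m1) (flat_meets.1 m2) (flat_meets.1 m3)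
    · exact k2 r u v (fun e => h1 (by rw [e])) m3.symm m2.symm m1
    · exact k2 q u w (fun e => h3 (by rw [e])) m1.symm m2 m3
    · exact k1 q r (fun e => h2 (by rw [e])) m2
    · exact k2 p v w (fun e => h2 (by rw [e])) m1 m3 m2
    · exact k1 p r (fun e => h3 (by rw [e])) m3
    · exact k1 p q (fun e => h1 (by rw [e])) m1
    · exact k1 p q (fun e => h1 (by rw [e])) m1
  ysep := by
    rintro (q | q) (r | r) hne
    · obtain ⟨f1, f2, f3, f4, f5, f6, f7⟩ := fr (c.punit q)
      obtain ⟨g1, g2, g3, g4, g5, g6, g7⟩ := fr (c.punit r)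
      unfold YSep
      simp only [ipb, uprobe]
      have hqr : q ≠ r := fun e => hne (by rw [e])
      rcases c.ysep q r hqr with h | h
      · left; linarith
      · right; linarith
    · obtain ⟨f1, f2, f3, f4, f5, f6, f7⟩ := fr (c.punit q)
      obtain ⟨g1, g2, g3, g4, g5, g6, g7⟩ := fr (c.punit r)
      unfold YSep
      simp only [ipb, uprobe, lprobe]
      by_cases hqr : q = r
      · subst hqr
        right; linarith
      · rcases c.ysep q r hqr with h | h
        · left; linarith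
        · right; linarith
    · obtain ⟨f1, f2, f3, f4, f5, f6, f7⟩ := fr (c.punit q)
      obtain ⟨g1, g2, g3, g4, g5, g6, g7⟩ := fr (c.punit r)
      unfold YSep
      simp only [ipb, uprobe, lprobe]
      by_cases hqr : q = r
      · subst hqr
        left; linarith
      · rcases c.ysep q r hqr with h | h
        · left; linarith
        · right; linarith
    · obtain ⟨f1, f2, f3, f4, f5, f6, f7⟩ := fr (c.punit q)
      obtain ⟨g1, g2, g3, g4, g5, g6, g7⟩ := fr (c.punit r)
      unfold YSep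
      simp only [ipb, lprobe]
      have hqr : q ≠ r := fun e => hne (by rw [e])
      rcases c.ysep q r hqr with h | h
      · left; linarith
      · right; linarith

end Inner

/-! ### Colours -/

/-- every proper colouring shows at least `k` colours at some probe -/
def Conf.Rich {W R : Type} (c : Conf W R) (k : ℕ) : Prop :=
  ∀ f : W → ℕ, (∀ v w, v ≠ w → (c.bx v).Meets (c.bx w) → f v ≠ f w) →
    ∃ p, k ≤ (f '' c.C p).ncard

theorem rich_step {W R : Type} [Finite W] [Finite R] (c : Conf W R) {k : ℕ} (h : c.Rich k) :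
    (compose c (inner c)).Rich (k + 1) := by
  intro f hf
  obtain ⟨p, hp⟩ := h (fun w => f (Sum.inl w)) (by
    intro v w hvw hm
    exact hf (Sum.inl v) (Sum.inl w) (fun e => hvw (Sum.inl_injective e)) hm)
  obtain ⟨q, hq⟩ := h (fun w => f (Sum.inr (p, Sum.inl w))) (by
    intro v w hvw hm
    refine hf (Sum.inr (p, Sum.inl v)) (Sum.inr (p, Sum.inl w)) (fun e => hvw ?_) ?_
    · simpa using e
    · exact (place_meets (c.punit p)).2 (flat_meets.2 hm))
  set A : Set ℕ := (fun w => f (Sum.inl w)) '' c.C p with hA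
  set B : Set ℕ := (fun w => f (Sum.inr (p, Sum.inl w))) '' c.C q with hB
  have hAf : A.Finite := Set.toFinite _
  have hBf : B.Finite := Set.toFinite _
  by_cases hBA : B ⊆ A
  · -- the long object sees a new colour, or there are many colours anyway
    refine ⟨(p, Sum.inr q), ?_⟩
    have hsub : insert (f (Sum.inr (p, Sum.inr q))) A ⊆
        f '' (compose c (inner c)).C (p, Sum.inr q) := by
      rintro x (rfl | ⟨w, hw, rfl⟩)
      · exact ⟨Sum.inr (p, Sum.inr q), ⟨rfl, rfl⟩, rfl⟩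
      · exact ⟨Sum.inl w, hw, rfl⟩
    have hfin : (f '' (compose c (inner c)).C (p, Sum.inr q)).Finite := Set.toFinite _
    have hle := Set.ncard_le_ncard hsub hfin
    refine le_trans ?_ hle
    by_cases hD : f (Sum.inr (p, Sum.inr q)) ∈ A
    · rw [Set.insert_eq_of_mem hD]
      have hDB : f (Sum.inr (p, Sum.inr q)) ∉ B := by
        rintro ⟨w, hw, hwe⟩
        refine hf (Sum.inr (p, Sum.inr q)) (Sum.inr (p, Sum.inl w)) (by simp) ?_ hwe.symm
        exact (place_meets (c.punit p)).2 ((dbox_meets c q w).2 hw)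
      have hss : B ⊂ A := ⟨hBA, fun hAB => hDB (hAB hD)⟩
      have := Set.ncard_lt_ncard hss hAf
      omega
    · rw [Set.ncard_insert_of_notMem hD hAf]
      omega
  · refine ⟨(p, Sum.inl q), ?_⟩
    have hsub : A ∪ B ⊆ f '' (compose c (inner c)).C (p, Sum.inl q) := by
      rintro x (⟨w, hw, rfl⟩ | ⟨w, hw, rfl⟩)
      · exact ⟨Sum.inl w, hw, rfl⟩
      · exact ⟨Sum.inr (p, Sum.inl w), ⟨rfl, hw⟩, rfl⟩
    have hfin : (f '' (compose c (inner c)).C (p, Sum.inl q)).Finite := Set.toFinite _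
    refine le_trans ?_ (Set.ncard_le_ncard hsub hfin)
    have hss : A ⊂ A ∪ B := ⟨Set.subset_union_left, fun h => hBA (Set.subset_union_right.trans h)⟩
    have := Set.ncard_lt_ncard hss (Set.toFinite _)
    omega

/-- the starting configuration -/
def base : Conf PEmpty Unit where
  bx := fun x => x.elim
  pb := fun _ => ⟨0, 1, 0, 1, 0, 1⟩
  C := fun _ => ∅
  unit := fun x => x.elim
  punit := fun _ => by
    refine ⟨?_, ?_, ?_, ?_, ?_, ?_, ?_, ?_, ?_⟩ <;> norm_num
  inn := fun _ x => x.elim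
  out := fun _ x => x.elim
  indep := fun _ x => x.elim
  tri := fun x => x.elim
  ysep := fun p q h => absurd (Subsingleton.elim p q) h

theorem exists_rich (k : ℕ) : ∃ (W R : Type) (_ : Finite W) (_ : Finite R) (c : Conf W R),
    c.Rich k := by
  induction k with
  | zero => exact ⟨PEmpty, Unit, inferInstance, inferInstance, base, fun f _ => ⟨(), Nat.zero_le _⟩⟩
  | succ k ih =>
    obtain ⟨W, R, hW, hR, c, hc⟩ := ih
    exact ⟨W ⊕ (R × (W ⊕ R)), R × (R ⊕ R), inferInstance, inferInstance, compose c (inner c),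
      rich_step c hc⟩

/-- Finite triangle-free families of boxes of large chromatic number. -/
theorem exists_boxes (k : ℕ) : ∃ (W : Type) (_ : Finite W) (b : W → Box),
    (∀ w, (b w).Unit) ∧
    (∀ u v w, u ≠ v → v ≠ w → u ≠ w → (b u).Meets (b v) → (b v).Meets (b w) →
      ¬ (b u).Meets (b w)) ∧
    ∀ f : W → Fin k, ∃ v w, v ≠ w ∧ (b v).Meets (b w) ∧ f v = f w := by
  obtain ⟨W, R, hW, hR, c, hc⟩ := exists_rich (k + 1)
  refine ⟨W, hW, c.bx, c.unit, c.tri, ?_⟩
  intro f
  by_contra hcon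
  push Not at hcon
  obtain ⟨p, hp⟩ := hc (fun w => (f w : ℕ)) (by
    intro v w hvw hm e
    exact hcon v w hvw hm (Fin.ext e))
  have hsub : (fun w => (f w : ℕ)) '' c.C p ⊆ ((Finset.range k : Finset ℕ) : Set ℕ) := by
    rintro x ⟨w, _, rfl⟩
    simp
  have := Set.ncard_le_ncard hsub (Finset.finite_toSet _)
  rw [Set.ncard_coe_finset, Finset.card_range] at this
  omega

end Pool.Agent.H984R3.Burl
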