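import Mathlib

set_option autoImplicit false

/-! Counting (probabilistic) existence of three-valued functions on pairs such that every
`s × s` rectangle contains all three values. -/

namespace Pool.Agent.H984R3.Rect

/-- union bound -/
lemma hit_all {Ω : Type} [Fintype Ω] [DecidableEq Ω] (𝓑 : Finset (Finset Ω)) (s : ℕ)
    (hs : ∀ B ∈ 𝓑, B.card = s) (hcount : 3 * 𝓑.card * 2 ^ s < 3 ^ s) :
    ∃ f : Ω → Fin 3, ∀ B ∈ 𝓑, ∀ c : Fin 3, ∃ x ∈ B, f x = c := by
  classical
  by_contra hcon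
  push Not at hcon
  have hne : 𝓑.Nonempty := by
    obtain ⟨B, hB, _⟩ := hcon (fun _ => 0)
    exact ⟨B, hB⟩
  have hsΩ : s ≤ Fintype.card Ω := by
    obtain ⟨B, hB⟩ := hne
    rw [← hs B hB]
    exact Finset.card_le_univ B
  have hcardB : ∀ B ∈ 𝓑, ∀ c : Fin 3,
      (Finset.univ.filter (fun f : Ω → Fin 3 => ∀ x ∈ B, f x ≠ c)).card
        = 2 ^ s * 3 ^ (Fintype.card Ω - s) := by
    intro B hB c
    have h1 : Finset.univ.filter (fun f : Ω → Fin 3 => ∀ x ∈ B, f x ≠ c)
        = Fintype.piFinset (fun x => if x ∈ B then ({c}ᶜ : Finset (Fin 3)) else Finset.univ) := by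
      ext f
      simp only [Finset.mem_filter, Finset.mem_univ, true_and, Fintype.mem_piFinset]
      constructor
      · intro h x
        by_cases hx : x ∈ B
        · simp [hx, h x hx]
        · simp [hx]
      · intro h x hx
        have := h x
        simpa [hx] using this
    rw [h1, Fintype.card_piFinset]
    have h2 : ∀ x : Ω, (if x ∈ B then ({c}ᶜ : Finset (Fin 3)) else Finset.univ).card
        = if x ∈ B then 2 else 3 := by
      intro x
      by_cases hx : x ∈ B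
      · simp [hx, Finset.card_compl]
      · simp [hx]
    rw [Finset.prod_congr rfl (fun x _ => h2 x), Finset.prod_ite]
    simp only [Finset.prod_const]
    have h3 : (Finset.univ.filter (fun x : Ω => x ∈ B)).card = s := by
      rw [Finset.filter_mem_eq_inter, Finset.univ_inter, hs B hB]
    have h4 : (Finset.univ.filter (fun x : Ω => x ∉ B)).card = Fintype.card Ω - s := by
      have := Finset.card_filter_add_card_filter_not (s := (Finset.univ : Finset Ω))
        (fun x => x ∈ B)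
      rw [Finset.card_univ] at this
      omega
    rw [h3, h4]
  have hcover : (Finset.univ : Finset (Ω → Fin 3)) ⊆
      𝓑.biUnion (fun B => (Finset.univ : Finset (Fin 3)).biUnion
        (fun c => Finset.univ.filter (fun f : Ω → Fin 3 => ∀ x ∈ B, f x ≠ c))) := by
    intro f _
    obtain ⟨B, hB, c, hc⟩ := hcon f
    rw [Finset.mem_biUnion]
    refine ⟨B, hB, ?_⟩
    rw [Finset.mem_biUnion]
    refine ⟨c, Finset.mem_univ _, ?_⟩
    rw [Finset.mem_filter]
    exact ⟨Finset.mem_univ _, hc⟩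
  have h1 := Finset.card_le_card hcover
  rw [Finset.card_univ, Fintype.card_fun, Fintype.card_fin] at h1
  have h2 : (𝓑.biUnion (fun B => (Finset.univ : Finset (Fin 3)).biUnion
        (fun c => Finset.univ.filter (fun f : Ω → Fin 3 => ∀ x ∈ B, f x ≠ c)))).card
      ≤ 𝓑.card * (3 * (2 ^ s * 3 ^ (Fintype.card Ω - s))) := by
    refine Finset.card_biUnion_le_card_mul _ _ _ ?_
    intro B hB
    refine (Finset.card_biUnion_le_card_mul _ _ (2 ^ s * 3 ^ (Fintype.card Ω - s)) ?_).trans ?_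
    · intro c _
      exact (hcardB B hB c).le
    · simp
  have h3 : 3 ^ Fintype.card Ω = 3 ^ s * 3 ^ (Fintype.card Ω - s) := by
    rw [← pow_add]
    congr 1
    omega
  have h4 : 3 ^ s * 3 ^ (Fintype.card Ω - s)
      ≤ (3 * 𝓑.card * 2 ^ s) * 3 ^ (Fintype.card Ω - s) := by
    calc 3 ^ s * 3 ^ (Fintype.card Ω - s) = 3 ^ Fintype.card Ω := h3.symm
      _ ≤ _ := h1
      _ ≤ _ := h2
      _ = _ := by ring
  have h5 : 3 ^ s ≤ 3 * 𝓑.card * 2 ^ s :=
    Nat.le_of_mul_le_mul_right h4 (by positivity)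
  omega

lemma rect_numeric (μ s : ℕ) (h : 4 * μ + 4 ≤ s) :
    3 * ((2 ^ μ) ^ s * (2 ^ μ) ^ s) * 2 ^ (s * s) < 3 ^ (s * s) := by
  have h1 : (3 * ((2 ^ μ) ^ s * (2 ^ μ) ^ s) * 2 ^ (s * s)) ^ 2 < (3 ^ (s * s)) ^ 2 := by
    calc (3 * ((2 ^ μ) ^ s * (2 ^ μ) ^ s) * 2 ^ (s * s)) ^ 2
        = 9 * 2 ^ (4 * μ * s + 2 * (s * s)) := by
          rw [pow_add]
          have e1 : 2 ^ (4 * μ * s) = ((2 ^ μ) ^ s) ^ 4 := by
            rw [← pow_mul, ← pow_mul]; congr 1; ring
          have e2 : 2 ^ (2 * (s * s)) = (2 ^ (s * s)) ^ 2 := by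
            rw [← pow_mul]; congr 1; ring
          rw [e1, e2]; ring
      _ < 16 * 2 ^ (4 * μ * s + 2 * (s * s)) := by
          have : 0 < 2 ^ (4 * μ * s + 2 * (s * s)) := by positivity
          omega
      _ = 2 ^ (4 + (4 * μ * s + 2 * (s * s))) := by
          rw [show (16 : ℕ) = 2 ^ 4 by norm_num, ← pow_add]
      _ ≤ 2 ^ (3 * (s * s)) := by
          apply Nat.pow_le_pow_right (by norm_num)
          have hs : 1 ≤ s := by omega
          nlinarith [Nat.mul_le_mul_right s h]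
      _ = 8 ^ (s * s) := by rw [pow_mul]; norm_num
      _ ≤ 9 ^ (s * s) := Nat.pow_le_pow_left (by norm_num) _
      _ = (3 ^ (s * s)) ^ 2 := by
          rw [← pow_mul, mul_comm (s * s) 2, pow_mul 3 2 (s * s), show (3 : ℕ) ^ 2 = 9 by norm_num]
  exact lt_of_pow_lt_pow_left₀ 2 (by positivity) h1

/-- existence of a three-valued function all of whose `s × s` rectangles see all values -/
theorem exists_rect (μ s : ℕ) (h : 4 * μ + 4 ≤ s) :
    ∃ τ : ℕ → ℕ → Fin 3, ∀ A B : Finset ℕ, A ⊆ Finset.range (2 ^ μ) → B ⊆ Finset.range (2 ^ μ) →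
      s ≤ A.card → s ≤ B.card → ∀ c : Fin 3, ∃ a ∈ A, ∃ b ∈ B, τ a b = c := by
  classical
  set m := 2 ^ μ with hm
  have hm0 : 0 < m := by positivity
  let 𝓟 : Finset (Finset (Fin m)) := (Finset.univ : Finset (Fin m)).powersetCard s
  let 𝓑 : Finset (Finset (Fin m × Fin m)) :=
    (𝓟 ×ˢ 𝓟).image (fun p => p.1 ×ˢ p.2)
  have hs : ∀ B ∈ 𝓑, B.card = s * s := by
    intro B hB
    simp only [𝓑, Finset.mem_image, Finset.mem_product] at hB
    obtain ⟨p, ⟨hp1, hp2⟩, rfl⟩ := hB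
    rw [Finset.card_product, (Finset.mem_powersetCard.1 hp1).2, (Finset.mem_powersetCard.1 hp2).2]
  have hc : 𝓑.card ≤ m ^ s * m ^ s := by
    calc 𝓑.card ≤ (𝓟 ×ˢ 𝓟).card := Finset.card_image_le
      _ = 𝓟.card * 𝓟.card := Finset.card_product _ _
      _ ≤ m ^ s * m ^ s := by
          have : 𝓟.card ≤ m ^ s := by
            rw [Finset.card_powersetCard, Finset.card_univ, Fintype.card_fin]
            exact Nat.choose_le_pow _ _
          exact Nat.mul_le_mul this this
  have hcount : 3 * 𝓑.card * 2 ^ (s * s) < 3 ^ (s * s) := by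
    refine lt_of_le_of_lt ?_ (rect_numeric μ s h)
    gcongr
  obtain ⟨f, hf⟩ := hit_all 𝓑 (s * s) hs hcount
  refine ⟨fun x y => f (⟨x % m, Nat.mod_lt _ hm0⟩, ⟨y % m, Nat.mod_lt _ hm0⟩), ?_⟩
  intro A B hA hB hAs hBs c
  obtain ⟨A', hA', hA's⟩ := Finset.exists_subset_card_eq hAs
  obtain ⟨B', hB', hB's⟩ := Finset.exists_subset_card_eq hBs
  let g : ℕ → Fin m := fun x => ⟨x % m, Nat.mod_lt _ hm0⟩
  have hginj : ∀ A'' : Finset ℕ, A'' ⊆ Finset.range m → Set.InjOn g (A'' : Set ℕ) := by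
    intro A'' hA'' x hx y hy hxy
    have hx' := Finset.mem_range.1 (hA'' hx)
    have hy' := Finset.mem_range.1 (hA'' hy)
    have := congrArg Fin.val hxy
    simp only [g] at this
    rwa [Nat.mod_eq_of_lt hx', Nat.mod_eq_of_lt hy'] at this
  have hAi : (A'.image g).card = s := by
    rw [Finset.card_image_of_injOn (hginj A' (hA'.trans hA)), hA's]
  have hBi : (B'.image g).card = s := by
    rw [Finset.card_image_of_injOn (hginj B' (hB'.trans hB)), hB's]
  have hmem : (A'.image g) ×ˢ (B'.image g) ∈ 𝓑 := by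
    simp only [𝓑, Finset.mem_image, Finset.mem_product]
    refine ⟨(A'.image g, B'.image g), ⟨?_, ?_⟩, rfl⟩
    · exact Finset.mem_powersetCard.2 ⟨Finset.subset_univ _, hAi⟩
    · exact Finset.mem_powersetCard.2 ⟨Finset.subset_univ _, hBi⟩
  obtain ⟨x, hx, hxc⟩ := hf _ hmem c
  rw [Finset.mem_product, Finset.mem_image, Finset.mem_image] at hx
  obtain ⟨⟨a, ha, hga⟩, ⟨b, hb, hgb⟩⟩ := hx
  refine ⟨a, hA' ha, b, hB' hb, ?_⟩
  have : (g a, g b) = x := Prod.ext hga hgb
  rw [← hxc, ← this]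

end Pool.Agent.H984R3.Rect
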