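import Mathlib

set_option autoImplicit false

/-! The abstract weight argument on an `R`-ary tree. `L j p` is the weight of node `p` of depth
`j`; the children of `p` are `p * R + a`, `a < R`. -/

namespace Pool.Agent.H984R3.Trie

lemma sum_range_mul_add (f : ℕ → ℕ) (R m : ℕ) :
    ∑ z ∈ Finset.range (R * m), f z
      = ∑ a ∈ Finset.range R, ∑ z ∈ Finset.range m, f (a * m + z) := by
  induction R with
  | zero => simp
  | succ R ih =>
    rw [Nat.succ_mul, Finset.sum_range_add, Finset.sum_range_succ, ih]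

/-- number of descendants `i` levels below of weight at least `s0` -/
def cnt (L : ℕ → ℕ → ℕ) (R s0 : ℕ) : ℕ → ℕ → ℕ → ℕ
  | 0, j, p => if s0 ≤ L j p then 1 else 0
  | i + 1, j, p => ∑ a ∈ Finset.range R, cnt L R s0 i (j + 1) (p * R + a)

/-- total weight of the descendants `i` levels below of weight at least `s0` -/
def mass (L : ℕ → ℕ → ℕ) (R s0 : ℕ) : ℕ → ℕ → ℕ → ℕ
  | 0, j, p => if s0 ≤ L j p then L j p else 0
  | i + 1, j, p => ∑ a ∈ Finset.range R, mass L R s0 i (j + 1) (p * R + a)

section

variable {L : ℕ → ℕ → ℕ} {R s0 H ω : ℕ}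

lemma cnt_eq (i : ℕ) : ∀ j p : ℕ, cnt L R s0 i j p =
    ((Finset.range (R ^ i)).filter (fun z => s0 ≤ L (j + i) (p * R ^ i + z))).card := by
  induction i with
  | zero =>
    intro j p
    simp only [cnt, pow_zero, Finset.range_one, mul_one, add_zero]
    rw [Finset.card_filter, Finset.sum_singleton, add_zero]
  | succ i ih =>
    intro j p
    simp only [cnt]
    rw [Finset.card_filter, pow_succ', sum_range_mul_add]
    apply Finset.sum_congr rfl
    intro a _
    rw [ih, Finset.card_filter]
    apply Finset.sum_congr rfl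
    intro z _
    have h1 : j + 1 + i = j + (i + 1) := by ring
    have h2 : (p * R + a) * R ^ i + z = p * (R * R ^ i) + (a * R ^ i + z) := by ring
    rw [h1, h2]

variable (P1 : ∀ j, j < H → ∀ p, L j p = ∑ a ∈ Finset.range R, L (j + 1) (p * R + a))

include P1

lemma child_le {j p a : ℕ} (hj : j < H) (ha : a < R) : L (j + 1) (p * R + a) ≤ L j p := by
  rw [P1 j hj p]
  exact Finset.single_le_sum (f := fun a => L (j + 1) (p * R + a)) (fun _ _ => Nat.zero_le _)
    (Finset.mem_range.2 ha)

lemma cnt_small (i : ℕ) : ∀ j p : ℕ, j + i ≤ H → L j p < s0 → cnt L R s0 i j p = 0 := by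
  induction i with
  | zero =>
    intro j p _ h
    simp [cnt, not_le.2 h]
  | succ i ih =>
    intro j p hj h
    simp only [cnt]
    apply Finset.sum_eq_zero
    intro a ha
    apply ih _ _ (by omega)
    exact lt_of_le_of_lt (child_le P1 (by omega) (Finset.mem_range.1 ha)) h

lemma cnt_le
    (P3 : ∀ j, j < H → ∀ p, ((Finset.range R).filter
      (fun a => s0 ≤ L (j + 1) (p * R + a))).card ≤ ω) (i : ℕ) :
    ∀ j p : ℕ, j + i ≤ H → cnt L R s0 i j p ≤ ω ^ i := by
  induction i with
  | zero =>
    intro j p _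
    by_cases h : s0 ≤ L j p
    · simp [cnt, h]
    · simp [cnt, h]
  | succ i ih =>
    intro j p hj
    simp only [cnt]
    have h1 : ∑ a ∈ Finset.range R, cnt L R s0 i (j + 1) (p * R + a)
        = ∑ a ∈ (Finset.range R).filter (fun a => s0 ≤ L (j + 1) (p * R + a)),
            cnt L R s0 i (j + 1) (p * R + a) := by
      symm
      apply Finset.sum_subset (Finset.filter_subset _ _)
      intro a ha hna
      apply cnt_small P1 i _ _ (by omega)
      by_contra hcon
      exact hna (Finset.mem_filter.2 ⟨ha, not_lt.1 hcon⟩)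
    rw [h1]
    calc ∑ a ∈ (Finset.range R).filter (fun a => s0 ≤ L (j + 1) (p * R + a)),
            cnt L R s0 i (j + 1) (p * R + a)
        ≤ ∑ a ∈ (Finset.range R).filter (fun a => s0 ≤ L (j + 1) (p * R + a)), ω ^ i :=
          Finset.sum_le_sum (fun a _ => ih _ _ (by omega))
      _ = ((Finset.range R).filter (fun a => s0 ≤ L (j + 1) (p * R + a))).card * ω ^ i := by
          rw [Finset.sum_const, smul_eq_mul]
      _ ≤ ω * ω ^ i := Nat.mul_le_mul_right _ (P3 j (by omega) p)
      _ = ω ^ (i + 1) := by rw [pow_succ']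

lemma le_mass (hω : 1 ≤ ω)
    (P3 : ∀ j, j < H → ∀ p, ((Finset.range R).filter
      (fun a => s0 ≤ L (j + 1) (p * R + a))).card ≤ ω) (i : ℕ) :
    ∀ j p : ℕ, j + i ≤ H → s0 ≤ L j p →
      L j p ≤ mass L R s0 i j p + i * ω ^ i * (R * s0) := by
  induction i with
  | zero =>
    intro j p _ h
    simp [mass, h]
  | succ i ih =>
    intro j p hj h
    simp only [mass]
    rw [P1 j (by omega) p]
    rw [← Finset.sum_filter_add_sum_filter_not (Finset.range R)
      (fun a => s0 ≤ L (j + 1) (p * R + a)) (fun a => L (j + 1) (p * R + a))]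
    have hsmall : ∑ a ∈ (Finset.range R).filter (fun a => ¬ s0 ≤ L (j + 1) (p * R + a)),
        L (j + 1) (p * R + a) ≤ R * s0 := by
      calc _ ≤ ∑ a ∈ (Finset.range R).filter (fun a => ¬ s0 ≤ L (j + 1) (p * R + a)), s0 := by
            apply Finset.sum_le_sum
            intro a ha
            exact (not_le.1 (Finset.mem_filter.1 ha).2).le
        _ = ((Finset.range R).filter (fun a => ¬ s0 ≤ L (j + 1) (p * R + a))).card * s0 := by
            rw [Finset.sum_const, smul_eq_mul]
        _ ≤ R * s0 := by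
            apply Nat.mul_le_mul_right
            exact (Finset.card_filter_le _ _).trans (by simp)
    have hlarge : ∑ a ∈ (Finset.range R).filter (fun a => s0 ≤ L (j + 1) (p * R + a)),
        L (j + 1) (p * R + a) ≤
        ∑ a ∈ Finset.range R, mass L R s0 i (j + 1) (p * R + a)
          + ω * (i * ω ^ i * (R * s0)) := by
      calc _ ≤ ∑ a ∈ (Finset.range R).filter (fun a => s0 ≤ L (j + 1) (p * R + a)),
              (mass L R s0 i (j + 1) (p * R + a) + i * ω ^ i * (R * s0)) := by
            apply Finset.sum_le_sum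
            intro a ha
            exact ih _ _ (by omega) (Finset.mem_filter.1 ha).2
        _ = ∑ a ∈ (Finset.range R).filter (fun a => s0 ≤ L (j + 1) (p * R + a)),
              mass L R s0 i (j + 1) (p * R + a)
            + ((Finset.range R).filter (fun a => s0 ≤ L (j + 1) (p * R + a))).card
              * (i * ω ^ i * (R * s0)) := by
            rw [Finset.sum_add_distrib, Finset.sum_const, smul_eq_mul]
        _ ≤ _ := by
            apply Nat.add_le_add
            · apply Finset.sum_le_sum_of_subset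
              exact Finset.filter_subset _ _
            · exact Nat.mul_le_mul_right _ (P3 j (by omega) p)
    have hω' : 1 ≤ ω ^ (i + 1) := Nat.one_le_pow _ _ hω
    have h3 : ω * (i * ω ^ i * (R * s0)) + R * s0 ≤ (i + 1) * ω ^ (i + 1) * (R * s0) := by
      calc ω * (i * ω ^ i * (R * s0)) + R * s0
          = i * ω ^ (i + 1) * (R * s0) + 1 * (R * s0) := by ring
        _ ≤ i * ω ^ (i + 1) * (R * s0) + ω ^ (i + 1) * (R * s0) := by gcongr
        _ = (i + 1) * ω ^ (i + 1) * (R * s0) := by ring
    omega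

omit P1 in
lemma mass_le (i : ℕ) : ∀ (j p X : ℕ), (∀ z < R ^ i, L (j + i) (p * R ^ i + z) ≤ X) →
    mass L R s0 i j p ≤ cnt L R s0 i j p * X := by
  induction i with
  | zero =>
    intro j p X h
    have := h 0 (by simp)
    by_cases h' : s0 ≤ L j p
    · simp only [pow_zero, mul_one, add_zero] at this
      simp [mass, cnt, h', this]
    · simp [mass, cnt, h']
  | succ i ih =>
    intro j p X h
    simp only [mass, cnt]
    rw [Finset.sum_mul]
    apply Finset.sum_le_sum
    intro a ha
    apply ih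
    intro z hz
    have ha' := Finset.mem_range.1 ha
    have h1 : j + 1 + i = j + (i + 1) := by ring
    have h2 : (p * R + a) * R ^ i + z = p * R ^ (i + 1) + (a * R ^ i + z) := by ring
    rw [h1, h2]
    apply h
    calc a * R ^ i + z < a * R ^ i + R ^ i := by omega
      _ = (a + 1) * R ^ i := by ring
      _ ≤ R * R ^ i := Nat.mul_le_mul_right _ ha'
      _ = R ^ (i + 1) := by rw [pow_succ']

omit P1 in
lemma exists_desc (hR : 1 ≤ R) (i j p : ℕ) :
    ∃ z < R ^ i, mass L R s0 i j p ≤ cnt L R s0 i j p * L (j + i) (p * R ^ i + z) := by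
  have hne : (Finset.range (R ^ i)).Nonempty := by
    rw [Finset.nonempty_range_iff]
    have : 1 ≤ R ^ i := Nat.one_le_pow _ _ hR
    omega
  obtain ⟨z, hz, hmax⟩ := Finset.exists_max_image (Finset.range (R ^ i))
    (fun z => L (j + i) (p * R ^ i + z)) hne
  refine ⟨z, Finset.mem_range.1 hz, ?_⟩
  apply mass_le
  intro z' hz'
  exact hmax z' (Finset.mem_range.2 hz')

/-- one step of the descent -/
lemma step {h Λ : ℕ} (hR : 1 ≤ R) (hh : 1 ≤ h) (hω : 1 ≤ ω) (hs0 : 1 ≤ s0)
    (P3 : ∀ j, j < H → ∀ p, ((Finset.range R).filter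
      (fun a => s0 ≤ L (j + 1) (p * R + a))).card ≤ ω)
    (P4 : ∀ j, j + 1 + h ≤ H → ∀ p a b, a < b → b < R →
      ((Finset.range (R ^ h)).filter
        (fun z => s0 ≤ L (j + 1 + h) ((p * R + a) * R ^ h + z))).card ≤ Λ ∨
      ((Finset.range (R ^ h)).filter
        (fun z => s0 ≤ L (j + 1 + h) ((p * R + b) * R ^ h + z))).card ≤ Λ)
    (q : ℝ) (hq : 1 + 1 / (h : ℝ) ≤ q)
    (hq2 : ((4 * (h + 1) * ω * Λ : ℕ) : ℝ) ≤ q ^ (h + 1))
    (j p : ℕ) (hj : j + 1 + h ≤ H)
    (hS : 4 * (h + 1) * ω * (h * ω ^ h * (R * s0)) ≤ L j p) :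
    ∃ i p', 1 ≤ i ∧ j + i ≤ H ∧ (L j p : ℝ) ≤ L (j + i) p' * q ^ i := by
  have hhR : (0 : ℝ) < h := by exact_mod_cast hh
  have hq0 : 0 < q := by
    have : 0 < 1 / (h : ℝ) := by positivity
    linarith
  set S := L j p with hSdef
  set B := h * ω ^ h * (R * s0) with hBdef
  have hRs0 : 1 ≤ R * s0 := Nat.one_le_iff_ne_zero.2 (by positivity)
  have hωh : 1 ≤ ω ^ h := Nat.one_le_pow _ _ hω
  have hBR : R * s0 ≤ B := by
    calc R * s0 = 1 * 1 * (R * s0) := by ring
      _ ≤ h * ω ^ h * (R * s0) := by gcongr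
  have hB1 : s0 ≤ B := by
    refine le_trans ?_ hBR
    calc s0 = 1 * s0 := by ring
      _ ≤ R * s0 := by gcongr
  by_cases hA : ∃ a < R, (S : ℝ) ≤ L (j + 1) (p * R + a) * q
  · obtain ⟨a, _, ha⟩ := hA
    exact ⟨1, p * R + a, le_refl _, by omega, by simpa using ha⟩
  · push Not at hA
    have hA' : ∀ a < R, (h + 1) * L (j + 1) (p * R + a) < h * S := by
      intro a ha
      have h1 := hA a ha
      have h2 : (L (j + 1) (p * R + a) : ℝ) * (1 + 1 / (h : ℝ)) < S := by
        refine lt_of_le_of_lt ?_ h1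
        exact mul_le_mul_of_nonneg_left hq (by positivity)
      have h3 : (L (j + 1) (p * R + a) : ℝ) * ((h : ℝ) + 1) < h * S := by
        have h4 : (L (j + 1) (p * R + a) : ℝ) * (1 + 1 / (h : ℝ)) * h < S * h :=
          mul_lt_mul_of_pos_right h2 hhR
        have h5 : (L (j + 1) (p * R + a) : ℝ) * (1 + 1 / (h : ℝ)) * h
            = (L (j + 1) (p * R + a) : ℝ) * ((h : ℝ) + 1) := by
          field_simp
        rw [h5] at h4
        linarith
      have h6 : ((((h + 1) * L (j + 1) (p * R + a) : ℕ)) : ℝ) < ((h * S : ℕ) : ℝ) := by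
        push_cast
        linarith
      exact_mod_cast h6
    -- heavy children
    let 𝒜 := (Finset.range R).filter (fun a => S ≤ 2 * (h + 1) * ω * L (j + 1) (p * R + a))
    have hcard : 1 < 𝒜.card := by
      by_contra hcon
      push Not at hcon
      let NH := (Finset.range R).filter
        (fun a => ¬ S ≤ 2 * (h + 1) * ω * L (j + 1) (p * R + a))
      let F1 := NH.filter (fun a => s0 ≤ L (j + 1) (p * R + a))
      let F2 := NH.filter (fun a => ¬ s0 ≤ L (j + 1) (p * R + a))
      have hsplit : S = ∑ a ∈ 𝒜, L (j + 1) (p * R + a)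
          + (∑ a ∈ F1, L (j + 1) (p * R + a) + ∑ a ∈ F2, L (j + 1) (p * R + a)) := by
        rw [Finset.sum_filter_add_sum_filter_not, Finset.sum_filter_add_sum_filter_not, hSdef]
        exact P1 j (by omega) p
      set T0 := ∑ a ∈ 𝒜, L (j + 1) (p * R + a) with hT0
      set T1 := ∑ a ∈ F1, L (j + 1) (p * R + a) with hT1
      set T2 := ∑ a ∈ F2, L (j + 1) (p * R + a) with hT2
      have hSpos : 0 < S := by
        have : 1 ≤ 4 * (h + 1) * ω * B := by
          refine Nat.one_le_iff_ne_zero.2 ?_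
          positivity
        omega
      have h0 : (h + 1) * T0 < h * S := by
        rcases Nat.lt_or_ge 𝒜.card 1 with h1 | h1
        · have h2 : 𝒜 = ∅ := Finset.card_eq_zero.1 (by omega)
          rw [hT0, h2]
          simp only [Finset.sum_empty, mul_zero]
          positivity
        · obtain ⟨a, ha⟩ := Finset.card_eq_one.1 (le_antisymm hcon h1)
          have ha' : a ∈ 𝒜 := by rw [ha]; simp
          have ha'' := Finset.mem_range.1 (Finset.mem_filter.1 ha').1
          rw [hT0, ha, Finset.sum_singleton]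
          exact hA' a ha''
      have h1 : 2 * (h + 1) * T1 ≤ S := by
        have h2 : 2 * (h + 1) * ω * T1 ≤ ω * S := by
          rw [hT1, Finset.mul_sum]
          calc _ ≤ ∑ a ∈ F1, S := by
                apply Finset.sum_le_sum
                intro a ha
                have := (Finset.mem_filter.1 (Finset.mem_filter.1 ha).1).2
                exact (not_le.1 this).le
            _ = F1.card * S := by
                rw [Finset.sum_const, smul_eq_mul]
            _ ≤ ω * S := by
                apply Nat.mul_le_mul_right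
                refine le_trans ?_ (P3 j (by omega) p)
                apply Finset.card_le_card
                apply Finset.filter_subset_filter
                exact Finset.filter_subset _ _
        have h3 : ω * (2 * (h + 1) * T1) ≤ ω * S := by
          calc _ = 2 * (h + 1) * ω * T1 := by ring
            _ ≤ _ := h2
        exact Nat.le_of_mul_le_mul_left h3 hω
      have h2 : 2 * (h + 1) * T2 ≤ S := by
        have h3 : T2 ≤ R * s0 := by
          rw [hT2]
          calc _ ≤ ∑ a ∈ F2, s0 := by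
                apply Finset.sum_le_sum
                intro a ha
                exact (not_le.1 (Finset.mem_filter.1 ha).2).le
            _ = F2.card * s0 := by
                rw [Finset.sum_const, smul_eq_mul]
            _ ≤ R * s0 := by
                apply Nat.mul_le_mul_right
                refine (Finset.card_filter_le _ _).trans ?_
                exact (Finset.card_filter_le _ _).trans (by simp)
        calc 2 * (h + 1) * T2 ≤ 2 * (h + 1) * B := by
              apply Nat.mul_le_mul_left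
              exact h3.trans hBR
          _ ≤ 4 * (h + 1) * ω * B := by
              apply Nat.mul_le_mul_right
              nlinarith
          _ ≤ S := hS
      have h3 : 2 * (h + 1) * S < 2 * (h + 1) * S := by
        calc 2 * (h + 1) * S = 2 * ((h + 1) * T0) + (2 * (h + 1) * T1 + 2 * (h + 1) * T2) := by
              rw [hsplit]; ring
          _ < 2 * (h * S) + (S + S) := by omega
          _ = 2 * (h + 1) * S := by ring
      exact lt_irrefl _ h3
    have key : ∃ e < R, S ≤ 2 * (h + 1) * ω * L (j + 1) (p * R + e) ∧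
        ((Finset.range (R ^ h)).filter
          (fun z => s0 ≤ L (j + 1 + h) ((p * R + e) * R ^ h + z))).card ≤ Λ := by
      obtain ⟨a, ha, b, hb, hab⟩ := Finset.one_lt_card.1 hcard
      have ha1 := Finset.mem_range.1 (Finset.mem_filter.1 ha).1
      have hb1 := Finset.mem_range.1 (Finset.mem_filter.1 hb).1
      have ha2 := (Finset.mem_filter.1 ha).2
      have hb2 := (Finset.mem_filter.1 hb).2
      rcases lt_or_gt_of_ne hab with h1 | h1
      · rcases P4 j hj p a b h1 hb1 with h2 | h2
        · exact ⟨a, ha1, ha2, h2⟩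
        · exact ⟨b, hb1, hb2, h2⟩
      · rcases P4 j hj p b a h1 ha1 with h2 | h2
        · exact ⟨b, hb1, hb2, h2⟩
        · exact ⟨a, ha1, ha2, h2⟩
    obtain ⟨e, _, he2, he3⟩ := key
    have hLB : 2 * B ≤ L (j + 1) (p * R + e) := by
      have h1 : 2 * (h + 1) * ω * (2 * B) ≤ 2 * (h + 1) * ω * L (j + 1) (p * R + e) := by
        calc _ = 4 * (h + 1) * ω * B := by ring
          _ ≤ S := hS
          _ ≤ _ := he2
      exact Nat.le_of_mul_le_mul_left h1 (by positivity)
    have hm := le_mass P1 hω P3 h (j + 1) (p * R + e) (by omega) (by omega)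
    obtain ⟨z, _, hz⟩ := exists_desc (L := L) (s0 := s0) hR h (j + 1) (p * R + e)
    rw [cnt_eq] at hz
    have hz2 : L (j + 1) (p * R + e) ≤ 2 * (Λ * L (j + 1 + h) ((p * R + e) * R ^ h + z)) := by
      have h1 : mass L R s0 h (j + 1) (p * R + e)
          ≤ Λ * L (j + 1 + h) ((p * R + e) * R ^ h + z) :=
        hz.trans (Nat.mul_le_mul_right _ he3)
      omega
    refine ⟨h + 1, (p * R + e) * R ^ h + z, by omega, by omega, ?_⟩
    have h1 : S ≤ (4 * (h + 1) * ω * Λ) * L (j + (h + 1)) ((p * R + e) * R ^ h + z) := by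
      have e1 : j + (h + 1) = j + 1 + h := by ring
      rw [e1]
      calc S ≤ 2 * (h + 1) * ω * L (j + 1) (p * R + e) := he2
        _ ≤ 2 * (h + 1) * ω * (2 * (Λ * L (j + 1 + h) ((p * R + e) * R ^ h + z))) := by gcongr
        _ = _ := by ring
    calc (S : ℝ) ≤ (((4 * (h + 1) * ω * Λ) * L (j + (h + 1)) ((p * R + e) * R ^ h + z) : ℕ) : ℝ) := by
          exact_mod_cast h1
      _ = ((4 * (h + 1) * ω * Λ : ℕ) : ℝ) * L (j + (h + 1)) ((p * R + e) * R ^ h + z) := by
          rw [Nat.cast_mul]
      _ ≤ q ^ (h + 1) * L (j + (h + 1)) ((p * R + e) * R ^ h + z) := by gcongr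
      _ = _ := by ring

/-- the contradiction -/
theorem main {h Λ n : ℕ} (hR : 1 ≤ R) (hh : 1 ≤ h) (hω : 1 ≤ ω) (hs0 : 2 ≤ s0) (hhH : h ≤ H)
    (P0 : L 0 0 = n) (P2 : ∀ p, L H p ≤ 1)
    (P3 : ∀ j, j < H → ∀ p, ((Finset.range R).filter
      (fun a => s0 ≤ L (j + 1) (p * R + a))).card ≤ ω)
    (P4 : ∀ j, j + 1 + h ≤ H → ∀ p a b, a < b → b < R →
      ((Finset.range (R ^ h)).filter
        (fun z => s0 ≤ L (j + 1 + h) ((p * R + a) * R ^ h + z))).card ≤ Λ ∨
      ((Finset.range (R ^ h)).filter
        (fun z => s0 ≤ L (j + 1 + h) ((p * R + b) * R ^ h + z))).card ≤ Λ)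
    (q : ℝ) (hq : 1 + 1 / (h : ℝ) ≤ q)
    (hq2 : ((4 * (h + 1) * ω * Λ : ℕ) : ℝ) ≤ q ^ (h + 1))
    (hbig : ((4 * (h + 1) * ω * (h * ω ^ h * (R * s0)) : ℕ) : ℝ) * q ^ H < n) : False := by
  have hhR : (0 : ℝ) < h := by exact_mod_cast hh
  have hq1 : 1 ≤ q := by
    have : 0 < 1 / (h : ℝ) := by positivity
    linarith
  have hq0 : 0 < q := by linarith
  have hbig' : ∀ j p, j ≤ H → (n : ℝ) ≤ L j p * q ^ j →
      4 * (h + 1) * ω * (h * ω ^ h * (R * s0)) < L j p := by
    intro j p hj hn
    have h1 : ((4 * (h + 1) * ω * (h * ω ^ h * (R * s0)) : ℕ) : ℝ) * q ^ H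
        < (L j p : ℝ) * q ^ H := by
      calc _ < (n : ℝ) := hbig
        _ ≤ L j p * q ^ j := hn
        _ ≤ L j p * q ^ H := by
            apply mul_le_mul_of_nonneg_left _ (by positivity)
            exact pow_le_pow_right₀ hq1 hj
    have h2 := lt_of_mul_lt_mul_right h1 (by positivity)
    exact_mod_cast h2
  have claim : ∀ i, i ≤ H - h → ∃ j p, i ≤ j ∧ j ≤ H ∧ (n : ℝ) ≤ L j p * q ^ j := by
    intro i
    induction i with
    | zero =>
      intro _
      exact ⟨0, 0, le_refl _, Nat.zero_le _, by simp [P0]⟩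
    | succ i ih =>
      intro hi
      obtain ⟨j, p, hij, hjH, hn⟩ := ih (by omega)
      by_cases hj : i + 1 ≤ j
      · exact ⟨j, p, hj, hjH, hn⟩
      · have hji : j = i := by omega
        have h1 := hbig' j p hjH hn
        obtain ⟨l, p', hl, hlH, hlS⟩ := step P1 hR hh hω (by omega) P3 P4 q hq hq2 j p
          (by omega) h1.le
        refine ⟨j + l, p', by omega, hlH, ?_⟩
        calc (n : ℝ) ≤ L j p * q ^ j := hn
          _ ≤ (L (j + l) p' * q ^ l) * q ^ j := by gcongr
          _ = L (j + l) p' * q ^ (j + l) := by rw [pow_add]; ring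
  obtain ⟨j, p, hj1, hj2, hn⟩ := claim (H - h) (le_refl _)
  have h1 := hbig' j p hj2 hn
  have hi : H - j ≤ h := by omega
  have hωh : 1 ≤ ω ^ h := Nat.one_le_pow _ _ hω
  have hs1 : s0 ≤ L j p := by
    have : s0 ≤ 4 * (h + 1) * ω * (h * ω ^ h * (R * s0)) := by
      calc s0 = 1 * (1 * 1 * (1 * s0)) := by ring
        _ ≤ (4 * (h + 1) * ω) * (h * ω ^ h * (R * s0)) := by
            gcongr
            nlinarith
    omega
  have h2 := le_mass P1 hω P3 (H - j) j p (by omega) hs1
  have h3 : mass L R s0 (H - j) j p ≤ 0 := by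
    obtain ⟨z, _, hz⟩ := exists_desc (L := L) (s0 := s0) hR (H - j) j p
    have h4 : cnt L R s0 (H - j) j p = 0 := by
      rw [cnt_eq, Finset.card_eq_zero, Finset.filter_eq_empty_iff]
      intro z _
      have h5 : j + (H - j) = H := by omega
      rw [h5]
      have := P2 (p * R ^ (H - j) + z)
      omega
    rw [h4, zero_mul] at hz
    exact hz
  have h4 : (H - j) * ω ^ (H - j) * (R * s0) ≤ h * ω ^ h * (R * s0) := by
    have : ω ^ (H - j) ≤ ω ^ h := Nat.pow_le_pow_right hω hi
    gcongr
  have h5 : h * ω ^ h * (R * s0) ≤ 4 * (h + 1) * ω * (h * ω ^ h * (R * s0)) := by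
    calc h * ω ^ h * (R * s0) = 1 * (h * ω ^ h * (R * s0)) := by ring
      _ ≤ (4 * (h + 1) * ω) * (h * ω ^ h * (R * s0)) := by
          gcongr
          nlinarith
  omega

end

end Pool.Agent.H984R3.Trie
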