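import Mathlib
import Pool.Agent.H984R3.Rect
import Pool.Agent.H984R3.Trie

set_option autoImplicit false

/-! A three-colouring of the pairs of `{0, ..., R^H - 1}`, read as words of length `H` over an
alphabet of size `R`. If `x < y` first differ in place `j + 1`, the value of `τ` at their letters
there is the forbidden colour, and the colour is decided by looking at the next `h` letters. -/

namespace Pool.Agent.H984R3.Color

open Pool.Agent.H984R3

/-- the colour of the pair `x < y` -/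
noncomputable def col (R h H : ℕ) (τ β : ℕ → ℕ → Fin 3) (x y : ℕ) : Fin 3 :=
  let j := Nat.findGreatest (fun j => x / R ^ (H - j) = y / R ^ (H - j)) H
  if β (x / R ^ (H - (j + 1 + h)) % R ^ h) (y / R ^ (H - (j + 1 + h)) % R ^ h)
      = τ (x / R ^ (H - (j + 1)) % R) (y / R ^ (H - (j + 1)) % R)
    then τ (x / R ^ (H - (j + 1)) % R) (y / R ^ (H - (j + 1)) % R) + 1
    else β (x / R ^ (H - (j + 1 + h)) % R ^ h) (y / R ^ (H - (j + 1 + h)) % R ^ h)

lemma div_step (R H j i x : ℕ) (hj : j + i ≤ H) :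
    x / R ^ (H - j) = x / R ^ (H - (j + i)) / R ^ i := by
  rw [Nat.div_div_eq_div_mul, ← pow_add]
  congr 2
  omega

lemma fg_eq {R H x y j : ℕ} (hj : j < H) (h1 : x / R ^ (H - j) = y / R ^ (H - j))
    (h2 : x / R ^ (H - (j + 1)) ≠ y / R ^ (H - (j + 1))) :
    Nat.findGreatest (fun j => x / R ^ (H - j) = y / R ^ (H - j)) H = j := by
  rw [Nat.findGreatest_eq_iff]
  refine ⟨hj.le, fun _ => h1, ?_⟩
  intro k hk hkH hcon
  apply h2
  have e : (j + 1) + (k - (j + 1)) = k := by omega
  rw [div_step R H (j + 1) (k - (j + 1)) x (by omega),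
    div_step R H (j + 1) (k - (j + 1)) y (by omega), e, hcon]

lemma col_formula {R h H : ℕ} {τ β : ℕ → ℕ → Fin 3} {x y j p a b : ℕ} (hj : j < H)
    (ha : a < R) (hb : b < R) (hab : a ≠ b)
    (hx : x / R ^ (H - (j + 1)) = p * R + a) (hy : y / R ^ (H - (j + 1)) = p * R + b) :
    col R h H τ β x y =
      if β (x / R ^ (H - (j + 1 + h)) % R ^ h) (y / R ^ (H - (j + 1 + h)) % R ^ h) = τ a b
        then τ a b + 1
        else β (x / R ^ (H - (j + 1 + h)) % R ^ h) (y / R ^ (H - (j + 1 + h)) % R ^ h) := by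
  have hR : 0 < R := by omega
  have h1 : x / R ^ (H - j) = y / R ^ (H - j) := by
    rw [div_step R H j 1 x (by omega), div_step R H j 1 y (by omega), hx, hy, pow_one]
    have e1 : (p * R + a) / R = p := by
      rw [mul_comm, Nat.mul_add_div hR, Nat.div_eq_of_lt ha, add_zero]
    have e2 : (p * R + b) / R = p := by
      rw [mul_comm, Nat.mul_add_div hR, Nat.div_eq_of_lt hb, add_zero]
    rw [e1, e2]
  have h2 : x / R ^ (H - (j + 1)) ≠ y / R ^ (H - (j + 1)) := by
    rw [hx, hy]
    omega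
  have h3 := fg_eq hj h1 h2
  have e1 : (p * R + a) % R = a := by
    rw [mul_comm, Nat.mul_add_mod, Nat.mod_eq_of_lt ha]
  have e2 : (p * R + b) % R = b := by
    rw [mul_comm, Nat.mul_add_mod, Nat.mod_eq_of_lt hb]
  unfold col
  simp only [h3, hx, hy, e1, e2]

/-- the ordered matching: position `i` of block `j` is joined to position `j` of block `i` -/
def M (k : ℕ) (hk : 0 < k) : SimpleGraph (Fin (k * k)) where
  Adj u v := u ≠ v ∧ (v : ℕ) = ((u : ℕ) % k) * k + (u : ℕ) / k
  symm := ⟨by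
    rintro u v ⟨hne, h⟩
    refine ⟨hne.symm, ?_⟩
    have hu : (u : ℕ) / k < k := Nat.div_lt_of_lt_mul u.2
    have h1 : (v : ℕ) % k = (u : ℕ) / k := by
      rw [h, mul_comm, Nat.mul_add_mod, Nat.mod_eq_of_lt hu]
    have h2 : (v : ℕ) / k = (u : ℕ) % k := by
      rw [h, mul_comm, Nat.mul_add_div hk, Nat.div_eq_of_lt hu, add_zero]
    rw [h1, h2]
    exact (Nat.div_add_mod' (u : ℕ) k).symm⟩
  loopless := ⟨fun u h => h.1 rfl⟩

lemma M_unique (k : ℕ) (hk : 0 < k) (v w w' : Fin (k * k)) (h : (M k hk).Adj v w)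
    (h' : (M k hk).Adj v w') : w = w' := by
  apply Fin.ext
  rw [h.2, h'.2]

/-- a convex set of at least `2k` positions contains a whole block -/
lemma block (k : ℕ) (hk : 0 < k) (I : Finset (Fin (k * k)))
    (hconv : ∀ u v w : Fin (k * k), u ∈ I → w ∈ I → u ≤ v → v ≤ w → v ∈ I)
    (hcard : 2 * k ≤ I.card) : ∃ i < k, ∀ v : Fin (k * k), (v : ℕ) / k = i → v ∈ I := by
  have hne : I.Nonempty := by
    rw [← Finset.card_pos]; omega
  let m := I.min' hne
  let m' := I.max' hne
  have h1 : I ⊆ Finset.Icc m m' := by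
    intro v hv
    rw [Finset.mem_Icc]
    exact ⟨I.min'_le v hv, I.le_max' v hv⟩
  have h2 := Finset.card_le_card h1
  rw [Fin.card_Icc] at h2
  have hm' : (m' : ℕ) < k * k := m'.2
  set a := ((m : ℕ) + (k - 1)) / k with ha
  have ha1 : (m : ℕ) ≤ a * k := by
    have := Nat.div_add_mod' ((m : ℕ) + (k - 1)) k
    have h3 := Nat.mod_lt ((m : ℕ) + (k - 1)) hk
    rw [← ha] at this
    omega
  have ha2 : a * k ≤ (m : ℕ) + (k - 1) := Nat.div_mul_le_self _ _
  refine ⟨a, ?_, ?_⟩
  · by_contra hcon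
    push Not at hcon
    have : k * k ≤ a * k := Nat.mul_le_mul_right k hcon
    omega
  · intro v hv
    have hv1 := Nat.div_add_mod' (v : ℕ) k
    have hv2 := Nat.mod_lt (v : ℕ) hk
    rw [hv] at hv1
    apply hconv m v m' (I.min'_mem hne) (I.max'_mem hne)
    · show (m : ℕ) ≤ (v : ℕ)
      omega
    · show (v : ℕ) ≤ (m' : ℕ)
      omega

/-- median split -/
lemma split (A : Finset ℕ) (w : ℕ) (h : 2 * w ≤ A.card) :
    ∃ t, w ≤ (A.filter (fun x => x < t)).card ∧ w ≤ (A.filter (fun x => t ≤ x)).card := by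
  classical
  have hex : ∃ t, w ≤ (A.filter (fun x => x < t)).card := by
    refine ⟨A.sup id + 1, ?_⟩
    have h1 : A.filter (fun x => x < A.sup id + 1) = A := by
      apply Finset.filter_true_of_mem
      intro x hx
      have : x ≤ A.sup id := Finset.le_sup (f := id) hx
      omega
    rw [h1]; omega
  let t := Nat.find hex
  have ht : w ≤ (A.filter (fun x => x < t)).card := Nat.find_spec hex
  refine ⟨t, ht, ?_⟩
  have hle : (A.filter (fun x => x < t)).card ≤ w := by
    rcases Nat.eq_zero_or_pos t with h0 | h0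
    · rw [h0]; simp
    · have h1 : ¬ w ≤ (A.filter (fun x => x < t - 1)).card := Nat.find_min hex (by omega)
      have h2 : A.filter (fun x => x < t) ⊆ insert (t - 1) (A.filter (fun x => x < t - 1)) := by
        intro x hx
        rw [Finset.mem_insert, Finset.mem_filter]
        rw [Finset.mem_filter] at hx
        by_cases hxt : x = t - 1
        · exact Or.inl hxt
        · exact Or.inr ⟨hx.1, by omega⟩
      have h3 := (Finset.card_le_card h2).trans (Finset.card_insert_le _ _)
      omega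
  have h1 := Finset.card_filter_add_card_filter_not (s := A) (fun x => x < t)
  have h2 : A.filter (fun x => ¬ x < t) = A.filter (fun x => t ≤ x) := by
    apply Finset.filter_congr
    intro x _
    exact not_lt
  rw [h2] at h1
  omega

section main

variable {k : ℕ} (hk : 0 < k) {R h H : ℕ} (φ : Fin (k * k) → ℕ) (hφ : StrictMono φ)

/-- the vertices placed below node `p` of depth `j` -/
def I (R H : ℕ) (φ : Fin (k * k) → ℕ) (j p : ℕ) : Finset (Fin (k * k)) :=
  Finset.univ.filter (fun v => φ v / R ^ (H - j) = p)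

lemma mem_I {j p : ℕ} {v : Fin (k * k)} : v ∈ I R H φ j p ↔ φ v / R ^ (H - j) = p := by
  simp [I]

include hφ

lemma I_conv (j p : ℕ) (u v w : Fin (k * k)) (hu : u ∈ I R H φ j p) (hw : w ∈ I R H φ j p)
    (huv : u ≤ v) (hvw : v ≤ w) : v ∈ I R H φ j p := by
  rw [mem_I] at hu hw ⊢
  have h1 : φ u / R ^ (H - j) ≤ φ v / R ^ (H - j) := Nat.div_le_div_right (hφ.monotone huv)
  have h2 : φ v / R ^ (H - j) ≤ φ w / R ^ (H - j) := Nat.div_le_div_right (hφ.monotone hvw)
  omega

lemma edge {j p p' : ℕ} (hpp : p < p') (h1 : 2 * k ≤ (I R H φ j p).card)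
    (h2 : 2 * k ≤ (I R H φ j p').card) :
    ∃ u v : Fin (k * k), φ u / R ^ (H - j) = p ∧ φ v / R ^ (H - j) = p' ∧ u < v ∧
      (M k hk).Adj u v := by
  obtain ⟨i, hi, hib⟩ := block k hk _ (I_conv φ hφ j p) h1
  obtain ⟨i', hi', hib'⟩ := block k hk _ (I_conv φ hφ j p') h2
  have hu : i * k + i' < k * k := by
    calc i * k + i' < i * k + k := by omega
      _ = (i + 1) * k := by ring
      _ ≤ k * k := Nat.mul_le_mul_right k hi
  have hv : i' * k + i < k * k := by
    calc i' * k + i < i' * k + k := by omega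
      _ = (i' + 1) * k := by ring
      _ ≤ k * k := Nat.mul_le_mul_right k hi'
  have e1 : (i * k + i') / k = i := by
    rw [mul_comm, Nat.mul_add_div hk, Nat.div_eq_of_lt hi', add_zero]
  have e2 : (i' * k + i) / k = i' := by
    rw [mul_comm, Nat.mul_add_div hk, Nat.div_eq_of_lt hi, add_zero]
  have e3 : (i * k + i') % k = i' := by
    rw [mul_comm, Nat.mul_add_mod, Nat.mod_eq_of_lt hi']
  have m1 := (mem_I φ).1 (hib ⟨i * k + i', hu⟩ e1)
  have m2 := (mem_I φ).1 (hib' ⟨i' * k + i, hv⟩ e2)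
  have hlt : (⟨i * k + i', hu⟩ : Fin (k * k)) < ⟨i' * k + i, hv⟩ := by
    by_contra hcon
    have h3 := hφ.monotone (not_lt.1 hcon)
    have h4 := Nat.div_le_div_right (c := R ^ (H - j)) h3
    omega
  refine ⟨⟨i * k + i', hu⟩, ⟨i' * k + i, hv⟩, m1, m2, hlt, hlt.ne, ?_⟩
  show i' * k + i = ((i * k + i') % k) * k + (i * k + i') / k
  rw [e1, e3]

theorem no_copy (ρ w s : ℕ) (hR : R = 2 ^ ρ) (hh : 1 ≤ h) (hhH : h ≤ H) (hw : 1 ≤ w)
    (τ β : ℕ → ℕ → Fin 3)
    (hτ : ∀ A B : Finset ℕ, A ⊆ Finset.range (2 ^ ρ) → B ⊆ Finset.range (2 ^ ρ) →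
      w ≤ A.card → w ≤ B.card → ∀ c : Fin 3, ∃ a ∈ A, ∃ b ∈ B, τ a b = c)
    (hβ : ∀ A B : Finset ℕ, A ⊆ Finset.range (2 ^ (ρ * h)) → B ⊆ Finset.range (2 ^ (ρ * h)) →
      s ≤ A.card → s ≤ B.card → ∀ c : Fin 3, ∃ a ∈ A, ∃ b ∈ B, β a b = c)
    (q : ℝ) (hq : 1 + 1 / (h : ℝ) ≤ q)
    (hq2 : ((4 * (h + 1) * (2 * w) * s : ℕ) : ℝ) ≤ q ^ (h + 1))
    (hbig : ((4 * (h + 1) * (2 * w) * (h * (2 * w) ^ h * (R * (2 * k))) : ℕ) : ℝ) * q ^ H
      < ((k * k : ℕ) : ℝ))
    (hφH : ∀ v, φ v < R ^ H) (c : Fin 3)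
    (hc : ∀ a b : Fin (k * k), a < b → (M k hk).Adj a b → col R h H τ β (φ a) (φ b) = c) :
    False := by
  have hR1 : 1 ≤ R := by rw [hR]; exact Nat.one_le_pow _ _ (by norm_num)
  have hR0 : 0 < R := hR1
  refine Trie.main (L := fun j p => (I R H φ j p).card) (R := R) (s0 := 2 * k) (H := H)
    (ω := 2 * w) (h := h) (Λ := s) (n := k * k) ?_ hR1 hh (by omega) (by omega) hhH ?_ ?_ ?_ ?_
    q hq hq2 hbig
  · -- P1
    intro j hj p
    rw [Finset.card_eq_sum_card_fiberwise (f := fun v => φ v / R ^ (H - (j + 1)) % R)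
      (t := Finset.range R)]
    · apply Finset.sum_congr rfl
      intro a ha
      have ha' := Finset.mem_range.1 ha
      congr 1
      ext v
      rw [Finset.mem_filter, mem_I, mem_I, div_step R H j 1 (φ v) (by omega), pow_one]
      constructor
      · rintro ⟨h1, h2⟩
        have := Nat.div_add_mod' (φ v / R ^ (H - (j + 1))) R
        rw [h1, h2] at this
        exact this.symm
      · intro h1
        rw [h1]
        constructor
        · rw [mul_comm, Nat.mul_add_div hR0, Nat.div_eq_of_lt ha', add_zero]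
        · rw [mul_comm, Nat.mul_add_mod, Nat.mod_eq_of_lt ha']
    · intro v _
      rw [Finset.mem_coe, Finset.mem_range]
      exact Nat.mod_lt _ hR0
  · -- P0
    have h1 : I R H φ 0 0 = Finset.univ := by
      ext v
      rw [mem_I]
      simp only [Nat.sub_zero, Finset.mem_univ, iff_true]
      exact Nat.div_eq_of_lt (hφH v)
    show (I R H φ 0 0).card = k * k
    rw [h1, Finset.card_univ, Fintype.card_fin]
  · -- P2
    intro p
    show (I R H φ H p).card ≤ 1
    rw [Finset.card_le_one]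
    intro u hu v hv
    rw [mem_I] at hu hv
    simp only [Nat.sub_self, pow_zero, Nat.div_one] at hu hv
    exact hφ.injective (by rw [hu, hv])
  · -- P3
    intro j hj p
    by_contra hcon
    push Not at hcon
    obtain ⟨t, ht1, ht2⟩ := split _ w hcon.le
    obtain ⟨a, ha, b, hb, hab⟩ := hτ _ _ (by
      intro x hx
      rw [← hR]
      exact (Finset.mem_filter.1 (Finset.mem_filter.1 hx).1).1) (by
      intro x hx
      rw [← hR]
      exact (Finset.mem_filter.1 (Finset.mem_filter.1 hx).1).1) ht1 ht2 c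
    have ha0 := Finset.mem_filter.1 ha
    have hb0 := Finset.mem_filter.1 hb
    have ha1 := Finset.mem_filter.1 ha0.1
    have hb1 := Finset.mem_filter.1 hb0.1
    have haR := Finset.mem_range.1 ha1.1
    have hbR := Finset.mem_range.1 hb1.1
    have hlt : a < b := lt_of_lt_of_le ha0.2 hb0.2
    obtain ⟨u, v, hu, hv, huv, hadj⟩ := edge hk φ hφ (R := R) (H := H) (j := j + 1)
      (p := p * R + a) (p' := p * R + b) (by omega) ha1.2 hb1.2
    have h1 := hc u v huv hadj
    rw [col_formula hj haR hbR hlt.ne hu hv] at h1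
    rw [hab] at h1
    split_ifs at h1 with h2
    · revert h1
      generalize c = c'
      revert c'
      decide
    · exact h2 h1
  · -- P4
    intro j hj p a b hab hbR
    by_contra hcon
    push Not at hcon
    obtain ⟨hA, hB⟩ := hcon
    have hRh : R ^ h = 2 ^ (ρ * h) := by rw [hR, ← pow_mul]
    have haR : a < R := by omega
    have hd : ∀ c d : Fin 3, ∃ e : Fin 3, e ≠ c ∧ e ≠ d := by decide
    obtain ⟨e, he1, he2⟩ := hd c (τ a b)
    obtain ⟨z, hz, z', hz', hzz⟩ := hβ _ _ (by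
      intro x hx
      rw [← hRh]
      exact (Finset.mem_filter.1 hx).1) (by
      intro x hx
      rw [← hRh]
      exact (Finset.mem_filter.1 hx).1) hA.le hB.le e
    have hz1 := Finset.mem_filter.1 hz
    have hz1' := Finset.mem_filter.1 hz'
    have hzR := Finset.mem_range.1 hz1.1
    have hzR' := Finset.mem_range.1 hz1'.1
    have hRh0 : 0 < R ^ h := by positivity
    have hlt : (p * R + a) * R ^ h + z < (p * R + b) * R ^ h + z' := by
      calc (p * R + a) * R ^ h + z < (p * R + a) * R ^ h + R ^ h := by omega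
        _ = (p * R + a + 1) * R ^ h := by ring
        _ ≤ (p * R + b) * R ^ h := Nat.mul_le_mul_right _ (by omega)
        _ ≤ _ := by omega
    obtain ⟨u, v, hu, hv, huv, hadj⟩ := edge hk φ hφ (R := R) (H := H) (j := j + 1 + h)
      hlt hz1.2 hz1'.2
    have hu' : φ u / R ^ (H - (j + 1)) = p * R + a := by
      rw [div_step R H (j + 1) h (φ u) hj, hu, mul_comm, Nat.mul_add_div hRh0,
        Nat.div_eq_of_lt hzR, add_zero]
    have hv' : φ v / R ^ (H - (j + 1)) = p * R + b := by
      rw [div_step R H (j + 1) h (φ v) hj, hv, mul_comm, Nat.mul_add_div hRh0,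
        Nat.div_eq_of_lt hzR', add_zero]
    have h1 := hc u v huv hadj
    rw [col_formula (by omega) haR hbR hab.ne hu' hv', hu, hv] at h1
    have e1 : ((p * R + a) * R ^ h + z) % R ^ h = z := by
      rw [mul_comm, Nat.mul_add_mod, Nat.mod_eq_of_lt hzR]
    have e2 : ((p * R + b) * R ^ h + z') % R ^ h = z' := by
      rw [mul_comm, Nat.mul_add_mod, Nat.mod_eq_of_lt hzR']
    rw [e1, e2, hzz, if_neg he2] at h1
    exact he1 h1

end main

end Pool.Agent.H984R3.Color
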