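import Mathlib

/-!
Definitions for the question on convex geometries, dimension and local dimension.
-/

namespace Pool.Agent.H984R3.ConvDefs

/-- `C` is a convex geometry on the ground set `X`: it contains the empty set and the whole
set, is closed under intersection, and every member other than the whole set can be enlarged
by one point inside the family. -/
def IsConvexGeometry {X : Type} (C : Set (Set X)) : Prop :=
  ∅ ∈ C ∧ Set.univ ∈ C ∧ (∀ A ∈ C, ∀ B ∈ C, A ∩ B ∈ C) ∧
    ∀ A ∈ C, A ≠ Set.univ → ∃ x, x ∉ A ∧ insert x A ∈ C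

/-- `L` (read as a non-strict relation) is a linear extension of the subposet of `P` induced
on the set `D`: reflexive, antisymmetric, transitive and total on `D`, and containing the order
of `P` there. -/
def IsPartialLinearExtension {P : Type} [PartialOrder P] (D : Set P) (L : P → P → Prop) : Prop :=
  (∀ x ∈ D, L x x) ∧
  (∀ x ∈ D, ∀ y ∈ D, L x y → L y x → x = y) ∧
  (∀ x ∈ D, ∀ y ∈ D, ∀ z ∈ D, L x y → L y z → L x z) ∧
  (∀ x ∈ D, ∀ y ∈ D, L x y ∨ L y x) ∧
  (∀ x ∈ D, ∀ y ∈ D, x ≤ y → L x y)

/-- `P` has order dimension at most `k`: its order is the intersection of at most `k` linear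
extensions of `P`. -/
def DimLE (P : Type) [PartialOrder P] (k : ℕ) : Prop :=
  ∃ t : ℕ, t ≤ k ∧ ∃ L : Fin t → P → P → Prop,
    (∀ i, IsPartialLinearExtension Set.univ (L i)) ∧
    ∀ x y : P, x ≤ y ↔ ∀ i, L i x y

/-- `P` has local dimension at most `d`: there is a finite family of partial linear extensions
such that every relation `x < y` of `P` holds in a member, for every incomparable pair each of the
two orders holds in some member, and every element lies in at most `d` members. -/
def LocalDimLE (P : Type) [PartialOrder P] (d : ℕ) : Prop :=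
  ∃ (m : ℕ) (D : Fin m → Set P) (L : Fin m → P → P → Prop),
    (∀ i, IsPartialLinearExtension (D i) (L i)) ∧
    (∀ x y : P, x < y → ∃ i, x ∈ D i ∧ y ∈ D i ∧ L i x y) ∧
    (∀ x y : P, ¬ x ≤ y → ¬ y ≤ x →
      (∃ i, x ∈ D i ∧ y ∈ D i ∧ L i x y) ∧ (∃ i, x ∈ D i ∧ y ∈ D i ∧ L i y x)) ∧
    ∀ x : P, {i : Fin m | x ∈ D i}.ncard ≤ d

end Pool.Agent.H984R3.ConvDefs
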