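import Mathlib
import Pool.Agent.H984R3.ConvDefs

namespace Pool.Agent.H984R3.Geom

open Pool.Agent.H984R3.ConvDefs

/-- Ordered data behind the construction: three total orders given by keys, and three far-before
relations. -/
structure Data (W : Type) (K : Type) [LinearOrder K] where
  key : Fin 3 → W → K
  inj : ∀ a, Function.Injective (key a)
  ll : Fin 3 → W → W → Prop
  ll_down : ∀ a u v w, key a u ≤ key a v → ll a v w → ll a u w
  ll_lt : ∀ a v w, ll a v w → key a v < key a w

variable {W K : Type} [LinearOrder K] (D : Data W K)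

/-- Adjacency: no far-before relation in any coordinate. -/
def Data.Adj (v w : W) : Prop := v ≠ w ∧ ∀ a, ¬ D.ll a v w ∧ ¬ D.ll a w v

abbrev X (W : Type) : Type := W ⊕ (Fin 3 × W)

/-- availability of a letter -/
def Data.Av (w : W) (A : Set (X W)) : Prop :=
  (∃ a, ∀ u, D.key a u < D.key a w → (Sum.inr (a, u) : X W) ∉ A) ∨
  (∀ a, ∀ u, D.ll a u w → (Sum.inr (a, u) : X W) ∉ A)

/-- the closed sets -/
def Data.closed : Set (Set (X W)) :=
  {A | (∀ a u v, D.key a u ≤ D.key a v → (Sum.inr (a, u) : X W) ∈ A → (Sum.inr (a, v) : X W) ∈ A) ∧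
    (∀ w, (Sum.inl w : X W) ∈ A → ∀ a, (Sum.inr (a, w) : X W) ∈ A) ∧
    (∀ w, (Sum.inl w : X W) ∉ A → D.Av w A)}

theorem Data.Av.mono {D : Data W K} {w : W} {A B : Set (X W)}
    (h : ∀ a u, (Sum.inr (a, u) : X W) ∈ A → (Sum.inr (a, u) : X W) ∈ B) (hB : D.Av w B) :
    D.Av w A := by
  rcases hB with ⟨a, ha⟩ | hB
  · exact Or.inl ⟨a, fun u hu hA => ha u hu (h a u hA)⟩
  · exact Or.inr fun a u hu hA => hB a u hu (h a u hA)

theorem closed_geometry [Finite W] : IsConvexGeometry D.closed := by
  classical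
  refine ⟨?_, ?_, ?_, ?_⟩
  · refine ⟨?_, ?_, ?_⟩
    · intro a u v _ h
      exact absurd h (Set.notMem_empty _)
    · intro w h
      exact absurd h (Set.notMem_empty _)
    · intro w _
      exact Or.inr fun a u _ => Set.notMem_empty _
  · refine ⟨?_, ?_, ?_⟩
    · intro a u v _ _
      exact Set.mem_univ _
    · intro w _ a
      exact Set.mem_univ _
    · intro w h
      exact absurd (Set.mem_univ _) h
  · rintro A ⟨hA1, hA2, hA3⟩ B ⟨hB1, hB2, hB3⟩
    refine ⟨?_, ?_, ?_⟩
    · intro a u v huv h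
      exact ⟨hA1 a u v huv h.1, hB1 a u v huv h.2⟩
    · intro w h a
      exact ⟨hA2 w h.1 a, hB2 w h.2 a⟩
    · intro w h
      by_cases hw : (Sum.inl w : X W) ∈ A
      · have hw' : (Sum.inl w : X W) ∉ B := fun hB => h ⟨hw, hB⟩
        exact (hB3 w hw').mono fun a u hu => hu.2
      · exact (hA3 w hw).mono fun a u hu => hu.1
  · rintro A ⟨hA1, hA2, hA3⟩ hne
    by_cases h1 : ∃ w, (Sum.inl w : X W) ∉ A ∧ ∀ a, (Sum.inr (a, w) : X W) ∈ A
    · obtain ⟨w, hw, hwa⟩ := h1
      refine ⟨Sum.inl w, hw, ?_, ?_, ?_⟩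
      · intro a u v huv h
        have h' : (Sum.inr (a, u) : X W) ∈ A := by
          rcases h with h | h
          · simp at h
          · exact h
        exact Or.inr (hA1 a u v huv h')
      · intro v h a
        rcases h with h | h
        · have : v = w := Sum.inl_injective h
          subst this
          exact Or.inr (hwa a)
        · exact Or.inr (hA2 v h a)
      · intro v h
        have hv : (Sum.inl v : X W) ∉ A := fun hv => h (Or.inr hv)
        refine (hA3 v hv).mono ?_
        intro a u hu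
        rcases hu with hu | hu
        · simp at hu
        · exact hu
    · push Not at h1
      -- some coordinate is not full
      have h2 : ∃ a v, (Sum.inr (a, v) : X W) ∉ A := by
        by_contra hcon
        push Not at hcon
        apply hne
        ext x
        simp only [Set.mem_univ, iff_true]
        rcases x with w | ⟨a, w⟩
        · by_contra hw
          obtain ⟨a, ha⟩ := h1 w hw
          exact ha (hcon a w)
        · exact hcon a w
      obtain ⟨a, v0, hv0⟩ := h2
      -- the largest missing element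
      obtain ⟨v, hv, hmax⟩ := Set.exists_max_image {v | (Sum.inr (a, v) : X W) ∉ A} (D.key a)
        (Set.toFinite _) ⟨v0, hv0⟩
      have hv : (Sum.inr (a, v) : X W) ∉ A := hv
      refine ⟨Sum.inr (a, v), hv, ?_, ?_, ?_⟩
      · intro b u w huw h
        rcases h with h | h
        · have h' : (b, u) = (a, v) := Sum.inr_injective h
          obtain ⟨rfl, rfl⟩ := Prod.mk.inj h'
          by_cases hw : (Sum.inr (b, w) : X W) ∈ A
          · exact Or.inr hw
          · have := hmax w hw
            have heq : w = u := D.inj b (le_antisymm this huw)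
            subst heq
            exact Or.inl rfl
        · exact Or.inr (hA1 b u w huw h)
      · intro w h b
        rcases h with h | h
        · simp at h
        · exact Or.inr (hA2 w h b)
      · intro w h
        have hw : (Sum.inl w : X W) ∉ A := fun hw => h (Or.inr hw)
        obtain ⟨b, hb⟩ := h1 w hw
        left
        refine ⟨b, ?_⟩
        intro u hu hmem
        rcases hmem with hmem | hmem
        · have h' : (b, u) = (a, v) := Sum.inr_injective hmem
          obtain ⟨rfl, rfl⟩ := Prod.mk.inj h'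
          have := hmax w hb
          exact absurd hu (not_lt.mpr this)
        · exact hb (hA1 b u w hu.le hmem)

/-! ### Dimension is at least the chromatic number -/

/-- the closed set `K_w` -/
def Kset (w : W) : Set (X W) :=
  fun x => match x with
    | Sum.inl v => v ≠ w ∧ ∀ a, ¬ D.ll a v w
    | Sum.inr (a, v) => ¬ D.ll a v w

/-- the closed set `N_w` -/
def Nset (w : W) : Set (X W) :=
  fun x => match x with
    | Sum.inl v => v = w ∨ ((∀ a, D.key a w < D.key a v) ∧ ∃ a, D.ll a w v)
    | Sum.inr (a, v) => D.key a w ≤ D.key a v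

theorem mem_Kset_inl (w v : W) : (Sum.inl v : X W) ∈ Kset D w ↔ v ≠ w ∧ ∀ a, ¬ D.ll a v w := Iff.rfl
theorem mem_Kset_inr (w v : W) (a : Fin 3) : (Sum.inr (a, v) : X W) ∈ Kset D w ↔ ¬ D.ll a v w :=
  Iff.rfl
theorem mem_Nset_inl (w v : W) : (Sum.inl v : X W) ∈ Nset D w ↔
    v = w ∨ ((∀ a, D.key a w < D.key a v) ∧ ∃ a, D.ll a w v) := Iff.rfl
theorem mem_Nset_inr (w v : W) (a : Fin 3) : (Sum.inr (a, v) : X W) ∈ Nset D w ↔
    D.key a w ≤ D.key a v := Iff.rfl

theorem Kset_closed (w : W) : Kset D w ∈ D.closed := by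
  refine ⟨?_, ?_, ?_⟩
  · intro a u v huv h
    rw [mem_Kset_inr] at h ⊢
    exact fun hv => h (D.ll_down a u v w huv hv)
  · intro v h a
    rw [mem_Kset_inl] at h
    rw [mem_Kset_inr]
    exact h.2 a
  · intro v h
    rw [mem_Kset_inl] at h
    by_cases hvw : v = w
    · subst hvw
      right
      intro a u hu
      rw [mem_Kset_inr]
      exact fun h' => h' hu
    · have : ∃ a, D.ll a v w := by
        by_contra hcon
        push Not at hcon
        exact h ⟨hvw, hcon⟩
      obtain ⟨a, ha⟩ := this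
      left
      refine ⟨a, ?_⟩
      intro u hu
      rw [mem_Kset_inr]
      exact fun h' => h' (D.ll_down a u v w hu.le ha)

theorem Nset_closed (w : W) : Nset D w ∈ D.closed := by
  refine ⟨?_, ?_, ?_⟩
  · intro a u v huv h
    rw [mem_Nset_inr] at h ⊢
    exact h.trans huv
  · intro v h a
    rw [mem_Nset_inl] at h
    rw [mem_Nset_inr]
    rcases h with h | h
    · subst h; exact le_rfl
    · exact (h.1 a).le
  · intro v h
    rw [mem_Nset_inl] at h
    push Not at h
    obtain ⟨hne, h⟩ := h
    by_cases h3 : ∀ a, D.key a w < D.key a v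
    · right
      intro a u hu
      rw [mem_Nset_inr]
      intro hwu
      exact h h3 a (D.ll_down a w u v hwu hu)
    · push Not at h3
      obtain ⟨a, ha⟩ := h3
      left
      refine ⟨a, ?_⟩
      intro u hu
      rw [mem_Nset_inr, not_le]
      exact hu.trans_le ha

theorem Nset_subset_Kset {v w : W} (h : D.Adj v w) : Nset D w ⊆ Kset D v := by
  intro x hx
  rcases x with u | ⟨a, u⟩
  · rw [mem_Nset_inl] at hx
    rw [mem_Kset_inl]
    rcases hx with rfl | ⟨hx1, a, hx2⟩
    · exact ⟨h.1.symm, fun a => (h.2 a).2⟩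
    · refine ⟨?_, ?_⟩
      · rintro rfl
        exact (h.2 a).2 hx2
      · intro b hb
        exact (h.2 b).2 (D.ll_down b w u v (hx1 b).le hb)
  · rw [mem_Nset_inr] at hx
    rw [mem_Kset_inr]
    exact fun hu => (h.2 a).2 (D.ll_down a w u v hx hu)

theorem not_Nset_subset_Kset (w : W) : ¬ Nset D w ⊆ Kset D w := by
  intro h
  have h1 : (Sum.inl w : X W) ∈ Nset D w := by
    rw [mem_Nset_inl]; exact Or.inl rfl
  have h2 := h h1
  rw [mem_Kset_inl] at h2
  exact h2.1 rfl

theorem not_dimLE {k : ℕ} (hk : ∀ c : W → Fin k, ∃ v w, D.Adj v w ∧ c v = c w) :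
    ¬ DimLE D.closed k := by
  rintro ⟨t, ht, L, hL, hLi⟩
  have h1 : ∀ w : W, ∃ i, ¬ L i ⟨Nset D w, Nset_closed D w⟩ ⟨Kset D w, Kset_closed D w⟩ := by
    intro w
    by_contra hcon
    push Not at hcon
    have := (hLi ⟨Nset D w, Nset_closed D w⟩ ⟨Kset D w, Kset_closed D w⟩).2 hcon
    exact not_Nset_subset_Kset D w this
  choose c hc using h1
  obtain ⟨v, w, hadj, hcvw⟩ := hk (fun w => Fin.castLE ht (c w))
  have hcvw' : c v = c w := by
    apply Fin.castLE_injective ht hcvw
  obtain ⟨-, hanti, htrans, htotal, hext⟩ := hL (c v)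
  have hadj' : D.Adj w v := ⟨hadj.1.symm, fun a => ⟨(hadj.2 a).2, (hadj.2 a).1⟩⟩
  have e1 : L (c v) ⟨Nset D w, Nset_closed D w⟩ ⟨Kset D v, Kset_closed D v⟩ :=
    hext _ (Set.mem_univ _) _ (Set.mem_univ _) (Nset_subset_Kset D hadj)
  have e2 : L (c v) ⟨Nset D v, Nset_closed D v⟩ ⟨Kset D w, Kset_closed D w⟩ :=
    hext _ (Set.mem_univ _) _ (Set.mem_univ _) (Nset_subset_Kset D hadj')
  have e3 : L (c v) ⟨Kset D w, Kset_closed D w⟩ ⟨Nset D w, Nset_closed D w⟩ := by
    have := hc w
    rw [← hcvw'] at this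
    exact (htotal _ (Set.mem_univ _) _ (Set.mem_univ _)).resolve_right this
  -- N_v <= K_w <= N_w <= K_v, contradiction
  have := htrans _ (Set.mem_univ _) _ (Set.mem_univ _) _ (Set.mem_univ _) e2 e3
  have := htrans _ (Set.mem_univ _) _ (Set.mem_univ _) _ (Set.mem_univ _) this e1
  exact hc v this

end Pool.Agent.H984R3.Geom
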