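import Mathlib
import Pool.Agent.H984R3.Geom

namespace Pool.Agent.H984R3.Geom

open Pool.Agent.H984R3.ConvDefs

/-- Local dimension bound from a realizer indexed by a finite type. -/
theorem localDimLE_of {P : Type} [PartialOrder P] {d : ℕ} {ι : Type} [Finite ι]
    (S : ι → Set P) (L : ι → P → P → Prop)
    (h1 : ∀ i, IsPartialLinearExtension (S i) (L i))
    (h2 : ∀ x y : P, ¬ x ≤ y → ∃ i, x ∈ S i ∧ y ∈ S i ∧ L i y x)
    (h3 : ∀ x y : P, x < y → ∃ i, x ∈ S i ∧ y ∈ S i ∧ L i x y)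
    (h4 : ∀ x : P, {i : ι | x ∈ S i}.ncard ≤ d) : LocalDimLE P d := by
  classical
  have := Fintype.ofFinite ι
  let e := Fintype.equivFin ι
  refine ⟨Fintype.card ι, fun i => S (e.symm i), fun i => L (e.symm i), fun i => h1 _, ?_, ?_, ?_⟩
  · intro x y hxy
    obtain ⟨i, hi⟩ := h3 x y hxy
    exact ⟨e i, by simpa using hi⟩
  · intro x y hxy hyx
    obtain ⟨i, hi⟩ := h2 x y hxy
    obtain ⟨j, hj⟩ := h2 y x hyx
    refine ⟨⟨e j, ?_⟩, ⟨e i, ?_⟩⟩
    · simpa using ⟨hj.2.1, hj.1, hj.2.2⟩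
    · simpa using hi
  · intro x
    have : {i : Fin (Fintype.card ι) | x ∈ S (e.symm i)} = e '' {i : ι | x ∈ S i} := by
      ext i
      simp
    rw [this, Set.ncard_image_of_injective _ e.injective]
    exact h4 x

/-- A partial linear extension from a monotone level function, ties broken by a fixed linear
extension. -/
theorem ple_of {P : Type} [PartialOrder P] (S : Set P) (g : P → ℕ)
    (hg : ∀ x ∈ S, ∀ y ∈ S, x ≤ y → g x ≤ g y) :
    IsPartialLinearExtension S (fun x y =>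
      toLex (g x, toLinearExtension x) ≤ toLex (g y, toLinearExtension y)) := by
  refine ⟨?_, ?_, ?_, ?_, ?_⟩
  · intro x _
    exact le_rfl
  · intro x _ y _ h h'
    have := le_antisymm h h'
    have := congrArg (fun z => (ofLex z).2) this
    exact this
  · intro x _ y _ z _ h h'
    exact le_trans h h'
  · intro x _ y _
    exact le_total _ _
  · intro x hx y hy hxy
    rw [Prod.Lex.toLex_le_toLex]
    rcases (hg x hx y hy hxy).lt_or_eq with h | h
    · exact Or.inl h
    · exact Or.inr ⟨h, toLinearExtension.monotone hxy⟩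

variable {W K : Type} [LinearOrder K] (D : Data W K)

/-- the up-set in coordinate `a` -/
def J (a : Fin 3) (A : Set (X W)) : Set W := {v | (Sum.inr (a, v) : X W) ∈ A}

theorem J_mono {a : Fin 3} {A B : Set (X W)} (h : A ⊆ B) : J a A ⊆ J a B := fun _ hv => h hv

/-- domain of the partial linear extension of a letter -/
def Dom (w : W) : Set D.closed :=
  {x | (∀ a, w ∈ J a x.1) ∧ D.Av w x.1}

open Classical in
theorem localDimLE [Finite W]
    (htri : ∀ u v w, D.Adj u v → D.Adj v w → D.Adj u w → False) :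
    LocalDimLE D.closed 8 := by
  let S : Fin 3 ⊕ W → Set D.closed := fun i => Sum.elim (fun _ => Set.univ) (fun w => Dom D w) i
  let g : Fin 3 ⊕ W → D.closed → ℕ := fun i x =>
    Sum.elim (fun a => (J a x.1).ncard) (fun w => if (Sum.inl w : X W) ∈ x.1 then 1 else 0) i
  have hg : ∀ i, ∀ x ∈ S i, ∀ y ∈ S i, x ≤ y → g i x ≤ g i y := by
    intro i x _ y _ hxy
    rcases i with a | w
    · exact Set.ncard_le_ncard (J_mono hxy) (Set.toFinite _)
    · simp only [g, Sum.elim_inr]
      split_ifs with h1 h2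
      · exact le_rfl
      · exact absurd (hxy h1) h2
      · exact Nat.zero_le _
      · exact le_rfl
  refine localDimLE_of S (fun i x y =>
      toLex (g i x, toLinearExtension x) ≤ toLex (g i y, toLinearExtension y))
      (fun i => ple_of (S i) (g i) (hg i)) ?_ ?_ ?_
  · intro x y hxy
    by_cases h : ∃ a, ¬ J a x.1 ⊆ J a y.1
    · obtain ⟨a, ha⟩ := h
      refine ⟨Sum.inl a, Set.mem_univ _, Set.mem_univ _, ?_⟩
      rw [Prod.Lex.toLex_le_toLex]
      left
      obtain ⟨v, hv1, hv2⟩ := Set.not_subset.1 ha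
      have hsub : J a y.1 ⊆ J a x.1 := by
        intro u hu
        have : D.key a v ≤ D.key a u := by
          by_contra hcon
          rw [not_le] at hcon
          exact hv2 (y.2.1 a u v hcon.le hu)
        exact x.2.1 a v u this hv1
      exact Set.ncard_lt_ncard ⟨hsub, ha⟩ (Set.toFinite _)
    · push Not at h
      have h2 : ∃ w, (Sum.inl w : X W) ∈ x.1 ∧ (Sum.inl w : X W) ∉ y.1 := by
        by_contra hcon
        push Not at hcon
        apply hxy
        intro z hz
        rcases z with w | ⟨a, v⟩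
        · exact hcon w hz
        · exact h a hz
      obtain ⟨w, hwx, hwy⟩ := h2
      have hJx : ∀ a, w ∈ J a x.1 := fun a => x.2.2.1 w hwx a
      have hJy : ∀ a, w ∈ J a y.1 := fun a => h a (hJx a)
      have hAy : D.Av w y.1 := y.2.2.2 w hwy
      have hAx : D.Av w x.1 := hAy.mono fun a u hu => h a hu
      refine ⟨Sum.inr w, ⟨hJx, hAx⟩, ⟨hJy, hAy⟩, ?_⟩
      rw [Prod.Lex.toLex_le_toLex]
      left
      simp only [g, Sum.elim_inr]
      rw [if_pos hwx, if_neg hwy]
      exact Nat.zero_lt_one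
  · intro x y hxy
    refine ⟨Sum.inl 0, Set.mem_univ _, Set.mem_univ _, ?_⟩
    exact (ple_of (S (Sum.inl 0)) (g (Sum.inl 0)) (hg (Sum.inl 0))).2.2.2.2 x (Set.mem_univ _) y
      (Set.mem_univ _) hxy.le
  · intro x
    have e1 : {i : Fin 3 ⊕ W | x ∈ S i} ⊆ Sum.inl '' (Set.univ : Set (Fin 3)) ∪
        Sum.inr '' ((⋃ a : Fin 3, {w | w ∈ J a x.1 ∧ ∀ u, D.key a u < D.key a w → u ∉ J a x.1}) ∪
          {w | (∀ a, w ∈ J a x.1) ∧ ∀ a u, D.ll a u w → u ∉ J a x.1}) := by
      intro i hi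
      rcases i with a | w
      · exact Or.inl ⟨a, Set.mem_univ _, rfl⟩
      · right
        refine ⟨w, ?_, rfl⟩
        have hi : x ∈ Dom D w := hi
        obtain ⟨hi1, hi2⟩ := hi
        rcases hi2 with ⟨a, ha⟩ | h
        · left
          rw [Set.mem_iUnion]
          exact ⟨a, hi1 a, ha⟩
        · exact Or.inr ⟨hi1, h⟩
    have c1 : ∀ a : Fin 3,
        {w | w ∈ J a x.1 ∧ ∀ u, D.key a u < D.key a w → u ∉ J a x.1}.ncard ≤ 1 := by
      intro a
      rw [Set.ncard_le_one_iff (Set.toFinite _)]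
      rintro v w ⟨hv1, hv2⟩ ⟨hw1, hw2⟩
      apply D.inj a
      apply le_antisymm
      · by_contra hcon
        rw [not_le] at hcon
        exact hv2 w hcon hw1
      · by_contra hcon
        rw [not_le] at hcon
        exact hw2 v hcon hv1
    have c2 : (⋃ a : Fin 3,
        {w | w ∈ J a x.1 ∧ ∀ u, D.key a u < D.key a w → u ∉ J a x.1}).ncard ≤ 3 := by
      have : (⋃ a : Fin 3, {w | w ∈ J a x.1 ∧ ∀ u, D.key a u < D.key a w → u ∉ J a x.1}) =
          {w | w ∈ J 0 x.1 ∧ ∀ u, D.key 0 u < D.key 0 w → u ∉ J 0 x.1} ∪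
          ({w | w ∈ J 1 x.1 ∧ ∀ u, D.key 1 u < D.key 1 w → u ∉ J 1 x.1} ∪
          {w | w ∈ J 2 x.1 ∧ ∀ u, D.key 2 u < D.key 2 w → u ∉ J 2 x.1}) := by
        ext w
        simp only [Set.mem_iUnion, Fin.exists_fin_succ, Fin.exists_fin_zero, Set.mem_union]
        simp
      rw [this]
      refine (Set.ncard_union_le _ _).trans ?_
      have := Set.ncard_union_le
        {w | w ∈ J 1 x.1 ∧ ∀ u, D.key 1 u < D.key 1 w → u ∉ J 1 x.1}
        {w | w ∈ J 2 x.1 ∧ ∀ u, D.key 2 u < D.key 2 w → u ∉ J 2 x.1}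
      have h0 := c1 0
      have h1 := c1 1
      have h2 := c1 2
      omega
    have c3 : {w | (∀ a, w ∈ J a x.1) ∧ ∀ a u, D.ll a u w → u ∉ J a x.1}.ncard ≤ 2 := by
      by_contra hcon
      rw [not_le] at hcon
      obtain ⟨u, v, w, hu, hv, hw, huv, huw, hvw⟩ := (Set.two_lt_ncard_iff (Set.toFinite _)).1 hcon
      have hadj : ∀ p q, ((∀ a, p ∈ J a x.1) ∧ ∀ a u, D.ll a u p → u ∉ J a x.1) →
          ((∀ a, q ∈ J a x.1) ∧ ∀ a u, D.ll a u q → u ∉ J a x.1) → p ≠ q → D.Adj p q := by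
        intro p q hp hq hpq
        refine ⟨hpq, fun a => ⟨?_, ?_⟩⟩
        · intro h
          exact hq.2 a p h (hp.1 a)
        · intro h
          exact hp.2 a q h (hq.1 a)
      exact htri u v w (hadj u v hu hv huv) (hadj v w hv hw hvw) (hadj u w hu hw huw)
    refine (Set.ncard_le_ncard e1 (Set.toFinite _)).trans ?_
    refine (Set.ncard_union_le _ _).trans ?_
    rw [Set.ncard_image_of_injective _ Sum.inl_injective,
      Set.ncard_image_of_injective _ Sum.inr_injective, Set.ncard_univ, Nat.card_eq_fintype_card,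
      Fintype.card_fin]
    have := Set.ncard_union_le
      (⋃ a : Fin 3, {w | w ∈ J a x.1 ∧ ∀ u, D.key a u < D.key a w → u ∉ J a x.1})
      {w | (∀ a, w ∈ J a x.1) ∧ ∀ a u, D.ll a u w → u ∉ J a x.1}
    omega

end Pool.Agent.H984R3.Geom
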